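import Pool.Agent.V60.LD.Dens

/-! Simple facts on logarithmic densities and on `⌊α b ^ n⌋`. -/

set_option autoImplicit false

open Finset Filter Topology

namespace Pool.Agent.V60.LD

open Classical in
lemma LogDens.mono {T T' : Set ℕ} {c : ℝ} (h : LogDens T c) (hT : ∀ᶠ n : ℕ in atTop, n ∈ T → n ∈ T') :
    LogDens T' c := by
  intro c' hc'
  obtain ⟨n0, hn0⟩ := eventually_atTop.1 hT
  have h1 := h ((c' + c) / 2) (by linarith)
  have h2 : Tendsto (fun N : ℕ => Real.log (N : ℝ)) atTop atTop :=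
    Real.tendsto_log_atTop.comp tendsto_natCast_atTop_atTop
  set A : ℝ := ∑ n ∈ Icc 1 n0, 1 / (n : ℝ) with hA
  filter_upwards [h1, h2.eventually_ge_atTop (2 * A / (c - c'))] with N hN1 hN2
  have h3 : ∑ n ∈ (Icc 1 N).filter (fun n => n ∈ T), 1 / (n : ℝ) ≤
      A + ∑ n ∈ (Icc 1 N).filter (fun n => n ∈ T'), 1 / (n : ℝ) := by
    have hsub : (Icc 1 N).filter (fun n => n ∈ T) ⊆ Icc 1 n0 ∪ (Icc 1 N).filter (fun n => n ∈ T') := by
      intro n hn
      rw [mem_filter, mem_Icc] at hn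
      rw [mem_union, mem_Icc, mem_filter, mem_Icc]
      by_cases h4 : n ≤ n0
      · exact Or.inl ⟨hn.1.1, h4⟩
      · exact Or.inr ⟨hn.1, hn0 n (by omega) hn.2⟩
    refine (Finset.sum_le_sum_of_subset_of_nonneg hsub fun n _ _ => by positivity).trans ?_
    have h5 := Finset.sum_union_inter (s₁ := Icc 1 n0) (s₂ := (Icc 1 N).filter (fun n => n ∈ T'))
      (f := fun n : ℕ => 1 / (n : ℝ))
    have h6 : 0 ≤ ∑ n ∈ Icc 1 n0 ∩ (Icc 1 N).filter (fun n => n ∈ T'), 1 / (n : ℝ) :=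
      Finset.sum_nonneg fun n _ => by positivity
    linarith
  rw [div_le_iff₀ (by linarith)] at hN2
  linarith

lemma LogDens.anti {T : Set ℕ} {c c' : ℝ} (h : LogDens T c) (hc : c' ≤ c) : LogDens T c' :=
  fun d hd => h d (hd.trans_le hc)

/-- the size of `⌊α b ^ n⌋` -/
lemma log_floor {b : ℕ} (hb : 2 ≤ b) {α : ℝ} (hα : 0 < α) : ∃ K : ℝ, 0 ≤ K ∧ ∀ᶠ n : ℕ in atTop,
    1 ≤ ⌊α * (b : ℝ) ^ n⌋₊ ∧ (n : ℝ) * Real.log b - K ≤ Real.log ⌊α * (b : ℝ) ^ n⌋₊ ∧
      Real.log ⌊α * (b : ℝ) ^ n⌋₊ ≤ (n : ℝ) * Real.log b + K := by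
  have hb1 : (1 : ℝ) < b := by exact_mod_cast (by omega : 1 < b)
  refine ⟨|Real.log α| + 1, by positivity, ?_⟩
  have h1 : Tendsto (fun n : ℕ => α * (b : ℝ) ^ n) atTop atTop :=
    (tendsto_pow_atTop_atTop_of_one_lt hb1).const_mul_atTop hα
  filter_upwards [h1.eventually_ge_atTop 2] with n hn
  set x : ℝ := α * (b : ℝ) ^ n with hx
  have h2 : (⌊x⌋₊ : ℝ) ≤ x := Nat.floor_le (by linarith)
  have h3 := Nat.lt_floor_add_one x
  have h4 : 1 ≤ ⌊x⌋₊ := Nat.le_floor (by push_cast; linarith)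
  have h4' : (1 : ℝ) ≤ ⌊x⌋₊ := by exact_mod_cast h4
  have hlx : Real.log x = Real.log α + n * Real.log b := by
    rw [hx, Real.log_mul hα.ne' (by positivity), Real.log_pow]
  refine ⟨h4, ?_, ?_⟩
  · have h5 : Real.log (x / 2) ≤ Real.log ⌊x⌋₊ := Real.log_le_log (by linarith) (by linarith)
    rw [Real.log_div (by linarith) (by norm_num), hlx] at h5
    have h6 := neg_abs_le (Real.log α)
    have h7 := Real.log_two_lt_d9
    linarith
  · have h5 : Real.log ⌊x⌋₊ ≤ Real.log x := Real.log_le_log (by linarith) h2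
    rw [hlx] at h5
    have h6 := le_abs_self (Real.log α)
    linarith

end Pool.Agent.V60.LD
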