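import Mathlib

/-! Large deviations for functions of the digits of a random number in base `b`. -/

set_option autoImplicit false

open Finset Filter Topology MeasureTheory

namespace Pool.Agent.V60.LD

/-- sums over blocks of descendants -/
lemma sum_blocks {B : ℕ} (x y : ℕ) (hB : 0 < B) (f : ℕ → ℝ) :
    ∑ a ∈ Ico (x * B) (y * B), f a = ∑ a' ∈ Ico x y, ∑ a ∈ Ico (a' * B) ((a' + 1) * B), f a := by
  have hm : ∀ a ∈ Ico (x * B) (y * B), a / B ∈ Ico x y := by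
    intro a ha
    rw [mem_Ico] at ha ⊢
    exact ⟨(Nat.le_div_iff_mul_le hB).2 ha.1, (Nat.div_lt_iff_lt_mul hB).2 ha.2⟩
  rw [← Finset.sum_fiberwise_of_maps_to hm]
  refine Finset.sum_congr rfl fun a' ha' => ?_
  rw [mem_Ico] at ha'
  refine Finset.sum_congr ?_ (fun _ _ => rfl)
  ext a
  rw [mem_filter, mem_Ico, mem_Ico]
  constructor
  · rintro ⟨_, h⟩
    subst h
    exact ⟨Nat.div_mul_le_self a B, by rw [← Nat.div_lt_iff_lt_mul hB]; omega⟩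
  · rintro ⟨h1, h2⟩
    have h3 : a / B = a' := by
      have h4 : a' ≤ a / B := (Nat.le_div_iff_mul_le hB).2 h1
      have h5 : a / B < a' + 1 := (Nat.div_lt_iff_lt_mul hB).2 h2
      omega
    refine ⟨⟨le_trans (Nat.mul_le_mul_right B ha'.1) h1, lt_of_lt_of_le h2 ?_⟩, h3⟩
    exact Nat.mul_le_mul_right B ha'.2

lemma card_block {B : ℕ} (a' : ℕ) : (Ico (a' * B) ((a' + 1) * B)).card = B := by
  rw [Nat.card_Ico, add_mul, one_mul, Nat.add_sub_cancel_left]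

/-- the product of functions of blocks of digits -/
lemma prod_le {b u s : ℕ} (hb : 0 < b) {ρ : ℝ} (hρ : 0 ≤ ρ) (ℓ : ℕ → ℕ) (hℓ : Monotone ℓ) (hs : s ≤ ℓ 0)
    (Φ : ℕ → ℕ → ℝ) (hΦ : ∀ j a, 0 ≤ Φ j a)
    (h : ∀ j a', u * b ^ (ℓ j - s) ≤ a' → a' < (u + 1) * b ^ (ℓ j - s) →
      ∑ a ∈ Ico (a' * b ^ (ℓ (j + 1) - ℓ j)) ((a' + 1) * b ^ (ℓ (j + 1) - ℓ j)), Φ j a ≤
        ρ * (b : ℝ) ^ (ℓ (j + 1) - ℓ j))
    (J : ℕ) :
    ∑ a ∈ Ico (u * b ^ (ℓ J - s)) ((u + 1) * b ^ (ℓ J - s)),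
      ∏ j ∈ range J, Φ j (a / b ^ (ℓ J - ℓ (j + 1))) ≤ ρ ^ J * (b : ℝ) ^ (ℓ J - s) := by
  induction J with
  | zero =>
    simp only [range_zero, prod_empty, sum_const, nsmul_eq_mul, mul_one, pow_zero, one_mul]
    rw [card_block]
    push_cast
    exact le_rfl
  | succ J ih =>
    have hsJ : s ≤ ℓ J := hs.trans (hℓ (Nat.zero_le J))
    have hJ : ℓ J ≤ ℓ (J + 1) := hℓ (Nat.le_succ J)
    have e1 : ℓ (J + 1) - s = (ℓ J - s) + (ℓ (J + 1) - ℓ J) := by omega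
    set B : ℕ := b ^ (ℓ (J + 1) - ℓ J) with hB
    have hB0 : 0 < B := Nat.pow_pos hb
    have e2 : b ^ (ℓ (J + 1) - s) = b ^ (ℓ J - s) * B := by rw [e1, pow_add]
    rw [e2, ← mul_assoc, ← mul_assoc, sum_blocks _ _ hB0]
    have hin : ∀ a' ∈ Ico (u * b ^ (ℓ J - s)) ((u + 1) * b ^ (ℓ J - s)),
        ∑ a ∈ Ico (a' * B) ((a' + 1) * B), ∏ j ∈ range (J + 1), Φ j (a / b ^ (ℓ (J + 1) - ℓ (j + 1))) ≤
          (∏ j ∈ range J, Φ j (a' / b ^ (ℓ J - ℓ (j + 1)))) * (ρ * (b : ℝ) ^ (ℓ (J + 1) - ℓ J)) := by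
      intro a' ha'
      rw [mem_Ico] at ha'
      have h1 : ∀ a ∈ Ico (a' * B) ((a' + 1) * B),
          ∏ j ∈ range (J + 1), Φ j (a / b ^ (ℓ (J + 1) - ℓ (j + 1))) =
            (∏ j ∈ range J, Φ j (a' / b ^ (ℓ J - ℓ (j + 1)))) * Φ J a := by
        intro a ha
        rw [mem_Ico] at ha
        have h3 : a / B = a' := by
          have h4 : a' ≤ a / B := (Nat.le_div_iff_mul_le hB0).2 ha.1
          have h5 : a / B < a' + 1 := (Nat.div_lt_iff_lt_mul hB0).2 ha.2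
          omega
        rw [prod_range_succ, Nat.sub_self, pow_zero, Nat.div_one]
        congr 1
        refine Finset.prod_congr rfl fun j hj => ?_
        rw [mem_range] at hj
        have hj1 : ℓ (j + 1) ≤ ℓ J := hℓ hj
        have e3 : ℓ (J + 1) - ℓ (j + 1) = (ℓ (J + 1) - ℓ J) + (ℓ J - ℓ (j + 1)) := by omega
        rw [e3, pow_add, ← Nat.div_div_eq_div_mul, ← hB, h3]
      rw [Finset.sum_congr rfl h1, ← Finset.mul_sum]
      exact mul_le_mul_of_nonneg_left (h J a' ha'.1 ha'.2) (Finset.prod_nonneg fun j _ => hΦ _ _)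
    refine (Finset.sum_le_sum hin).trans ?_
    rw [← Finset.sum_mul]
    have h2 : 0 ≤ ρ * (b : ℝ) ^ (ℓ (J + 1) - ℓ J) := by positivity
    refine (mul_le_mul_of_nonneg_right ih h2).trans (le_of_eq ?_)
    rw [e1, pow_add, pow_succ]
    ring

/-- `exp (-x) ≤ 1 - x + x² / 2` for `x ≥ 0` -/
lemma exp_neg_le {x : ℝ} (hx : 0 ≤ x) : Real.exp (-x) ≤ 1 - x + x ^ 2 / 2 := by
  have h1 := Real.quadratic_le_exp_of_nonneg hx
  have h2 : 0 < 1 + x + x ^ 2 / 2 := by positivity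
  have h3 : 0 < 1 - x + x ^ 2 / 2 := by nlinarith [sq_nonneg (x - 1)]
  rw [Real.exp_neg]
  refine (inv_anti₀ h2 h1).trans ?_
  rw [inv_le_comm₀ h2 h3, inv_le_comm₀ h3 h2] at *
  have h4 : 1 ≤ (1 - x + x ^ 2 / 2) * (1 + x + x ^ 2 / 2) := by
    nlinarith [sq_nonneg (x ^ 2), pow_nonneg hx 4]
  rw [inv_le_iff_one_le_mul₀ h2]
  linarith [mul_comm (1 - x + x ^ 2 / 2) (1 + x + x ^ 2 / 2)]

open Classical in
/-- **Large deviations.** -/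
lemma dev_card {b u s : ℕ} (hb : 0 < b) {q R ε : ℝ} (hR : 0 < R) (hε : 0 < ε) (ℓ : ℕ → ℕ) (hℓ : Monotone ℓ)
    (hs : s ≤ ℓ 0) (Z : ℕ → ℕ → ℝ) (hZ : ∀ j a, 0 ≤ Z j a) (hZR : ∀ j a, Z j a ≤ R)
    (h : ∀ j a', u * b ^ (ℓ j - s) ≤ a' → a' < (u + 1) * b ^ (ℓ j - s) →
      q * (b : ℝ) ^ (ℓ (j + 1) - ℓ j) ≤
        ∑ a ∈ Ico (a' * b ^ (ℓ (j + 1) - ℓ j)) ((a' + 1) * b ^ (ℓ (j + 1) - ℓ j)), Z j a)
    (J : ℕ) :
    (((Ico (u * b ^ (ℓ J - s)) ((u + 1) * b ^ (ℓ J - s))).filter (fun a =>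
      ∑ j ∈ range J, Z j (a / b ^ (ℓ J - ℓ (j + 1))) ≤ (q - ε) * J)).card : ℝ) ≤
      Real.exp (-(ε ^ 2 / (2 * R ^ 2)) * J) * (b : ℝ) ^ (ℓ J - s) := by
  set t : ℝ := ε / R ^ 2 with ht
  have ht0 : 0 < t := by positivity
  set ρ : ℝ := Real.exp (-t * q + t ^ 2 * R ^ 2 / 2) with hρ
  have h1 := prod_le (u := u) hb (ρ := ρ) (Real.exp_pos _).le ℓ hℓ hs (fun j a => Real.exp (-(t * Z j a)))
    (fun j a => (Real.exp_pos _).le) (fun j a' h1 h2 => ?_) J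
  · set Ω := Ico (u * b ^ (ℓ J - s)) ((u + 1) * b ^ (ℓ J - s)) with hΩ
    have h2 : ∀ a, ∏ j ∈ range J, Real.exp (-(t * Z j (a / b ^ (ℓ J - ℓ (j + 1))))) =
        Real.exp (-(t * ∑ j ∈ range J, Z j (a / b ^ (ℓ J - ℓ (j + 1))))) := by
      intro a
      rw [← Real.exp_sum, Finset.sum_neg_distrib, Finset.mul_sum]
    simp only [h2] at h1
    set D := Ω.filter (fun a => ∑ j ∈ range J, Z j (a / b ^ (ℓ J - ℓ (j + 1))) ≤ (q - ε) * J) with hD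
    have h3 : (D.card : ℝ) * Real.exp (-(t * ((q - ε) * J))) ≤ ρ ^ J * (b : ℝ) ^ (ℓ J - s) := by
      calc (D.card : ℝ) * Real.exp (-(t * ((q - ε) * J))) = ∑ a ∈ D, Real.exp (-(t * ((q - ε) * J))) := by
            rw [sum_const, nsmul_eq_mul]
        _ ≤ ∑ a ∈ D, Real.exp (-(t * ∑ j ∈ range J, Z j (a / b ^ (ℓ J - ℓ (j + 1))))) := by
            refine Finset.sum_le_sum fun a ha => ?_
            rw [hD, mem_filter] at ha
            apply Real.exp_le_exp.2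
            have := mul_le_mul_of_nonneg_left ha.2 ht0.le
            linarith
        _ ≤ ∑ a ∈ Ω, Real.exp (-(t * ∑ j ∈ range J, Z j (a / b ^ (ℓ J - ℓ (j + 1))))) :=
            Finset.sum_le_sum_of_subset_of_nonneg (filter_subset _ _) fun _ _ _ => (Real.exp_pos _).le
        _ ≤ _ := h1
    have h4 : (D.card : ℝ) ≤ ρ ^ J * (b : ℝ) ^ (ℓ J - s) * Real.exp (t * ((q - ε) * J)) := by
      have h5 := mul_le_mul_of_nonneg_right h3 (Real.exp_pos (t * ((q - ε) * J))).le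
      rw [mul_assoc, ← Real.exp_add, neg_add_cancel, Real.exp_zero, mul_one] at h5
      exact h5
    refine h4.trans (le_of_eq ?_)
    rw [hρ, ← Real.exp_nat_mul, mul_right_comm, ← Real.exp_add]
    congr 2
    rw [ht]
    field_simp
    ring
  · calc ∑ a ∈ Ico (a' * b ^ (ℓ (j + 1) - ℓ j)) ((a' + 1) * b ^ (ℓ (j + 1) - ℓ j)), Real.exp (-(t * Z j a))
        ≤ ∑ a ∈ Ico (a' * b ^ (ℓ (j + 1) - ℓ j)) ((a' + 1) * b ^ (ℓ (j + 1) - ℓ j)),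
            (1 + t ^ 2 * R ^ 2 / 2 - t * Z j a) := by
          refine Finset.sum_le_sum fun a _ => ?_
          refine (exp_neg_le (mul_nonneg ht0.le (hZ j a))).trans ?_
          have h3 : (t * Z j a) ^ 2 ≤ (t * R) ^ 2 := by
            have := mul_le_mul_of_nonneg_left (hZR j a) ht0.le
            have h0 := mul_nonneg ht0.le (hZ j a)
            gcongr
          nlinarith
      _ = (1 + t ^ 2 * R ^ 2 / 2) * (b : ℝ) ^ (ℓ (j + 1) - ℓ j) -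
          t * ∑ a ∈ Ico (a' * b ^ (ℓ (j + 1) - ℓ j)) ((a' + 1) * b ^ (ℓ (j + 1) - ℓ j)), Z j a := by
          rw [Finset.sum_sub_distrib, sum_const, nsmul_eq_mul, card_block, ← Finset.mul_sum]
          push_cast
          ring
      _ ≤ (1 + t ^ 2 * R ^ 2 / 2) * (b : ℝ) ^ (ℓ (j + 1) - ℓ j) - t * (q * (b : ℝ) ^ (ℓ (j + 1) - ℓ j)) := by
          have := mul_le_mul_of_nonneg_left (h j a' h1 h2) ht0.le
          linarith
      _ = (-t * q + t ^ 2 * R ^ 2 / 2 + 1) * (b : ℝ) ^ (ℓ (j + 1) - ℓ j) := by ring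
      _ ≤ ρ * (b : ℝ) ^ (ℓ (j + 1) - ℓ j) := by
          have := Real.add_one_le_exp (-t * q + t ^ 2 * R ^ 2 / 2)
          gcongr

/-- floors at different levels -/
lemma floor_level {b n M : ℕ} (hb : 0 < b) (h : n ≤ M) {α : ℝ} :
    ⌊α * (b : ℝ) ^ M⌋₊ / b ^ (M - n) = ⌊α * (b : ℝ) ^ n⌋₊ := by
  rw [← Nat.floor_div_natCast]
  congr 1
  have hb0 : (b : ℝ) ≠ 0 := by exact_mod_cast hb.ne'
  have e : (b : ℝ) ^ M = (b : ℝ) ^ n * (b : ℝ) ^ (M - n) := by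
    rw [← pow_add]
    congr 1
    omega
  rw [e]
  push_cast
  field_simp

open Classical in
/-- the measure of the exceptional set -/
lemma dev_measure {b u s : ℕ} (hb : 0 < b) {q R ε : ℝ} (hR : 0 < R) (hε : 0 < ε) (ℓ : ℕ → ℕ) (hℓ : Monotone ℓ)
    (hs : s ≤ ℓ 0) (Z : ℕ → ℕ → ℝ) (hZ : ∀ j a, 0 ≤ Z j a) (hZR : ∀ j a, Z j a ≤ R)
    (h : ∀ j a', u * b ^ (ℓ j - s) ≤ a' → a' < (u + 1) * b ^ (ℓ j - s) →
      q * (b : ℝ) ^ (ℓ (j + 1) - ℓ j) ≤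
        ∑ a ∈ Ico (a' * b ^ (ℓ (j + 1) - ℓ j)) ((a' + 1) * b ^ (ℓ (j + 1) - ℓ j)), Z j a)
    (J : ℕ) :
    volume {α : ℝ | (u : ℝ) / b ^ s ≤ α ∧ α < (u + 1) / b ^ s ∧
      ∑ j ∈ range J, Z j ⌊α * (b : ℝ) ^ ℓ (j + 1)⌋₊ ≤ (q - ε) * J} ≤
      ENNReal.ofReal (Real.exp (-(ε ^ 2 / (2 * R ^ 2)) * J)) := by
  have hb0 : (0 : ℝ) < b := by exact_mod_cast hb
  have hsJ : s ≤ ℓ J := hs.trans (hℓ (Nat.zero_le J))
  set D := (Ico (u * b ^ (ℓ J - s)) ((u + 1) * b ^ (ℓ J - s))).filter (fun a =>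
      ∑ j ∈ range J, Z j (a / b ^ (ℓ J - ℓ (j + 1))) ≤ (q - ε) * J) with hD
  have hsub : {α : ℝ | (u : ℝ) / b ^ s ≤ α ∧ α < (u + 1) / b ^ s ∧
      ∑ j ∈ range J, Z j ⌊α * (b : ℝ) ^ ℓ (j + 1)⌋₊ ≤ (q - ε) * J} ⊆
      ⋃ a ∈ D, Set.Ico ((a : ℝ) / b ^ ℓ J) ((a + 1) / b ^ ℓ J) := by
    rintro α ⟨h1, h2, h3⟩
    have hα0 : 0 ≤ α := le_trans (by positivity) h1
    have hP : (0 : ℝ) < (b : ℝ) ^ ℓ J := by positivity
    have hfl1 := Nat.floor_le (mul_nonneg hα0 hP.le)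
    have hfl2 := Nat.lt_floor_add_one (α * (b : ℝ) ^ ℓ J)
    rw [Set.mem_iUnion₂]
    refine ⟨⌊α * (b : ℝ) ^ ℓ J⌋₊, ?_, ?_, ?_⟩
    · rw [hD, mem_filter, mem_Ico]
      have e : (b : ℝ) ^ ℓ J = (b : ℝ) ^ s * (b : ℝ) ^ (ℓ J - s) := by
        rw [← pow_add]
        congr 1
        omega
      have hPs : (0 : ℝ) < (b : ℝ) ^ s := by positivity
      have hPs2 : (0 : ℝ) < (b : ℝ) ^ (ℓ J - s) := by positivity
      rw [div_le_iff₀ hPs] at h1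
      rw [lt_div_iff₀ hPs] at h2
      refine ⟨⟨?_, ?_⟩, ?_⟩
      · apply Nat.le_floor
        push_cast
        rw [e, ← mul_assoc]
        exact mul_le_mul_of_nonneg_right h1 hPs2.le
      · rw [Nat.floor_lt (by positivity)]
        push_cast
        rw [e, ← mul_assoc]
        exact mul_lt_mul_of_pos_right h2 hPs2
      · refine le_trans (le_of_eq ?_) h3
        refine Finset.sum_congr rfl fun j hj => ?_
        rw [mem_range] at hj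
        rw [floor_level hb (hℓ hj)]
    · rw [div_le_iff₀ hP]
      exact hfl1
    · rw [lt_div_iff₀ hP]
      exact hfl2
  refine (measure_mono hsub).trans ((measure_biUnion_finset_le _ _).trans ?_)
  have h1 : ∀ a ∈ D, volume (Set.Ico ((a : ℝ) / b ^ ℓ J) ((a + 1) / b ^ ℓ J)) =
      ENNReal.ofReal (1 / (b : ℝ) ^ ℓ J) := by
    intro a _
    rw [Real.volume_Ico]
    congr 1
    ring
  rw [Finset.sum_congr rfl h1, sum_const, nsmul_eq_mul, ← ENNReal.ofReal_natCast,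
    ← ENNReal.ofReal_mul (Nat.cast_nonneg _)]
  apply ENNReal.ofReal_le_ofReal
  have h2 := dev_card (u := u) hb hR hε ℓ hℓ hs Z hZ hZR h J
  rw [mul_one_div, div_le_iff₀ (by positivity)]
  refine h2.trans (mul_le_mul_of_nonneg_left ?_ (Real.exp_pos _).le)
  exact pow_le_pow_right₀ (by exact_mod_cast hb) (Nat.sub_le _ _)

/-- **Lower bounds for sums of functions of the blocks of digits**, almost everywhere. -/
theorem dev_ae {b u s : ℕ} (hb : 0 < b) {q R ε : ℝ} (hR : 0 < R) (hε : 0 < ε) (ℓ : ℕ → ℕ) (hℓ : Monotone ℓ)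
    (hs : s ≤ ℓ 0) (Z : ℕ → ℕ → ℝ) (hZ : ∀ j a, 0 ≤ Z j a) (hZR : ∀ j a, Z j a ≤ R)
    (h : ∀ j a', u * b ^ (ℓ j - s) ≤ a' → a' < (u + 1) * b ^ (ℓ j - s) →
      q * (b : ℝ) ^ (ℓ (j + 1) - ℓ j) ≤
        ∑ a ∈ Ico (a' * b ^ (ℓ (j + 1) - ℓ j)) ((a' + 1) * b ^ (ℓ (j + 1) - ℓ j)), Z j a) :
    ∀ᵐ α : ℝ, (u : ℝ) / b ^ s ≤ α → α < (u + 1) / b ^ s →
      ∀ᶠ J : ℕ in atTop, (q - ε) * J < ∑ j ∈ range J, Z j ⌊α * (b : ℝ) ^ ℓ (j + 1)⌋₊ := by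
  set η : ℝ := ε ^ 2 / (2 * R ^ 2) with hη
  have hη0 : 0 < η := by positivity
  have hsum : ∑' J : ℕ, volume {α : ℝ | (u : ℝ) / b ^ s ≤ α ∧ α < (u + 1) / b ^ s ∧
      ∑ j ∈ range J, Z j ⌊α * (b : ℝ) ^ ℓ (j + 1)⌋₊ ≤ (q - ε) * J} ≠ ⊤ := by
    refine ne_top_of_le_ne_top ?_ (ENNReal.tsum_le_tsum fun J =>
      dev_measure (u := u) hb hR hε ℓ hℓ hs Z hZ hZR h J)
    refine Summable.tsum_ofReal_ne_top ?_
    have h1 : Summable (fun J : ℕ => (Real.exp (-η)) ^ J) :=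
      summable_geometric_of_lt_one (Real.exp_pos _).le ((Real.exp_lt_exp.2 (by linarith : -η < 0)).trans_eq Real.exp_zero)
    refine h1.congr fun J => ?_
    rw [← Real.exp_nat_mul]
    congr 1
    ring
  filter_upwards [ae_eventually_notMem hsum] with α hα h1 h2
  filter_upwards [hα] with J hJ
  by_contra hcon
  exact hJ ⟨h1, h2, not_lt.1 hcon⟩

end Pool.Agent.V60.LD
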