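import Pool.Agent.V60.LD.Dev

/-! The logarithmic density of the `n` for which `⌊α b ^ n⌋` belongs to a given set of integers. -/

set_option autoImplicit false

open Finset Filter Topology MeasureTheory

namespace Pool.Agent.V60.LD

open Classical in
/-- the lower logarithmic density of the set `T` is at least `c` -/
def LogDens (T : Set ℕ) (c : ℝ) : Prop := ∀ c' : ℝ, c' < c → ∀ᶠ N : ℕ in atTop,
  c' * Real.log N ≤ ∑ n ∈ (Icc 1 N).filter (fun n => n ∈ T), 1 / (n : ℝ)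

lemma sum_inv_ge {n0 : ℕ} (h0 : 0 < n0) (m : ℕ) :
    Real.log ((n0 + m : ℕ) : ℝ) - Real.log n0 ≤ ∑ n ∈ Ico n0 (n0 + m), 1 / (n : ℝ) := by
  induction m with
  | zero => simp
  | succ m ih =>
    rw [← add_assoc, Finset.sum_Ico_succ_top (by omega)]
    have h1 : (0 : ℝ) < ((n0 + m : ℕ) : ℝ) := by exact_mod_cast (by omega : 0 < n0 + m)
    have h2 : Real.log (((n0 + m + 1 : ℕ) : ℝ)) - Real.log ((n0 + m : ℕ) : ℝ) ≤ 1 / ((n0 + m : ℕ) : ℝ) := by
      rw [← Real.log_div (by positivity) h1.ne']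
      refine (Real.log_le_sub_one_of_pos (by positivity)).trans (le_of_eq ?_)
      push_cast
      push_cast at h1
      field_simp
      ring
    linarith

lemma sum_inv_le {n0 K : ℕ} (h0 : 0 < n0) : ∑ n ∈ Ico n0 (K * n0), 1 / (n : ℝ) ≤ K := by
  have h1 : ∀ n ∈ Ico n0 (K * n0), 1 / (n : ℝ) ≤ 1 / n0 := by
    intro n hn
    rw [mem_Ico] at hn
    apply one_div_le_one_div_of_le
    · exact_mod_cast h0
    · exact_mod_cast hn.1
  refine (Finset.sum_le_sum h1).trans ?_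
  rw [sum_const, nsmul_eq_mul, Nat.card_Ico, mul_one_div, div_le_iff₀ (by exact_mod_cast h0)]
  have h2 : ((K * n0 - n0 : ℕ) : ℝ) ≤ ((K * n0 : ℕ) : ℝ) := by exact_mod_cast Nat.sub_le _ _
  push_cast at h2
  exact h2

open Classical in
/-- the sum over the descendants -/
lemma block_sum {b : ℕ} (hb : 0 < b) {S : Set ℕ} {c : ℝ} {ℓ n0 L a' : ℕ} (h1 : ℓ ≤ n0)
    (h : ∀ n ∈ Ico n0 L, c * (b : ℝ) ^ (n - ℓ) ≤
      (((Ico (a' * b ^ (n - ℓ)) ((a' + 1) * b ^ (n - ℓ))).filter (fun m => m ∈ S)).card : ℝ)) :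
    c * (∑ n ∈ Ico n0 L, 1 / (n : ℝ)) * (b : ℝ) ^ (L - ℓ) ≤
      ∑ a ∈ Ico (a' * b ^ (L - ℓ)) ((a' + 1) * b ^ (L - ℓ)),
        ∑ n ∈ Ico n0 L, if a / b ^ (L - n) ∈ S then 1 / (n : ℝ) else 0 := by
  rw [Finset.sum_comm, Finset.mul_sum, Finset.sum_mul]
  refine Finset.sum_le_sum fun n hn => ?_
  have hn' := mem_Ico.1 hn
  have e1 : L - ℓ = (n - ℓ) + (L - n) := by omega
  have hB0 : 0 < b ^ (L - n) := Nat.pow_pos hb
  have e2 : b ^ (L - ℓ) = b ^ (n - ℓ) * b ^ (L - n) := by rw [e1, pow_add]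
  rw [e2, ← mul_assoc, ← mul_assoc, sum_blocks _ _ hB0]
  have h2 : ∀ m ∈ Ico (a' * b ^ (n - ℓ)) ((a' + 1) * b ^ (n - ℓ)),
      ∑ a ∈ Ico (m * b ^ (L - n)) ((m + 1) * b ^ (L - n)), (if a / b ^ (L - n) ∈ S then 1 / (n : ℝ) else 0) =
        if m ∈ S then 1 / (n : ℝ) * (b : ℝ) ^ (L - n) else 0 := by
    intro m _
    have h3 : ∀ a ∈ Ico (m * b ^ (L - n)) ((m + 1) * b ^ (L - n)),
        (if a / b ^ (L - n) ∈ S then 1 / (n : ℝ) else 0) = if m ∈ S then 1 / (n : ℝ) else 0 := by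
      intro a ha
      rw [mem_Ico] at ha
      have h5 : a / b ^ (L - n) = m := by
        have h6 : m ≤ a / b ^ (L - n) := (Nat.le_div_iff_mul_le hB0).2 ha.1
        have h7 : a / b ^ (L - n) < m + 1 := (Nat.div_lt_iff_lt_mul hB0).2 ha.2
        omega
      rw [h5]
    rw [Finset.sum_congr rfl h3, sum_const, nsmul_eq_mul, card_block]
    split_ifs
    · push_cast
      ring
    · ring
  rw [Finset.sum_congr rfl h2, ← Finset.sum_filter, sum_const, nsmul_eq_mul]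
  have h4 := h n hn
  have h5 : (0 : ℝ) ≤ 1 / (n : ℝ) * (b : ℝ) ^ (L - n) := by positivity
  refine le_trans (le_of_eq ?_) (mul_le_mul_of_nonneg_right h4 h5)
  rw [e1, pow_add]
  ring

open Classical in
/-- the sum over the `n` in a block -/
noncomputable def blk (S : Set ℕ) (b K i : ℕ) (α : ℝ) : ℝ :=
  ∑ n ∈ Ico (K ^ i) (K ^ (i + 1)), if ⌊α * (b : ℝ) ^ n⌋₊ ∈ S then 1 / (n : ℝ) else 0

open Classical in
lemma blk_sum (S : Set ℕ) (b : ℕ) {K : ℕ} (hK : 1 ≤ K) (j0 J : ℕ) (α : ℝ) :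
    ∑ j ∈ range J, (blk S b K (2 * (j + j0) + 1) α + blk S b K (2 * (j + j0) + 2) α) =
      ∑ n ∈ Ico (K ^ (2 * j0 + 1)) (K ^ (2 * (J + j0) + 1)), if ⌊α * (b : ℝ) ^ n⌋₊ ∈ S then 1 / (n : ℝ) else 0 := by
  induction J with
  | zero => simp
  | succ J ih =>
    rw [sum_range_succ, ih]
    unfold blk
    have h1 : K ^ (2 * j0 + 1) ≤ K ^ (2 * (J + j0) + 1) := Nat.pow_le_pow_right hK (by omega)
    have h2 : K ^ (2 * (J + j0) + 1) ≤ K ^ (2 * (J + j0) + 2) := Nat.pow_le_pow_right hK (by omega)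
    have h3 : K ^ (2 * (J + j0) + 2) ≤ K ^ (2 * (J + 1 + j0) + 1) := Nat.pow_le_pow_right hK (by omega)
    have e : 2 * (J + j0) + 2 + 1 = 2 * (J + 1 + j0) + 1 := by ring
    rw [e, show 2 * (J + j0) + 1 + 1 = 2 * (J + j0) + 2 by ring, Finset.sum_Ico_consecutive _ h2 h3,
      Finset.sum_Ico_consecutive _ h1 (h2.trans h3)]

open Classical in
/-- the blocks of one parity -/
lemma parity {b : ℕ} (hb : 2 ≤ b) {S : Set ℕ} {c θ : ℝ} (hc : 0 ≤ c) (hθ0 : 0 ≤ θ) (X0 : ℕ)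
    (hS : ∀ X Y : ℕ, X0 ≤ Y → (X : ℝ) ^ θ ≤ Y → 2 * Y ≤ X →
      c * Y ≤ (((Ico X (X + Y)).filter (fun m => m ∈ S)).card : ℝ))
    {u s K : ℕ} (hu : 2 ≤ u) (hK : 2 ≤ K) (hKθ : 1 / (K : ℝ) ≤ (1 - θ) / 2) {j0 : ℕ} (hs : s ≤ K ^ (2 * j0))
    (hX0 : X0 ≤ K ^ (2 * j0)) (hlog : Real.log (u + 1) ≤ (K : ℝ) ^ (2 * j0) * ((1 - θ) / 2) * Real.log b)
    (e : ℕ) {ε : ℝ} (hε : 0 < ε) :
    ∀ᵐ α : ℝ, (u : ℝ) / b ^ s ≤ α → α < (u + 1) / b ^ s →
      ∀ᶠ J : ℕ in atTop, (c * Real.log K - ε) * J < ∑ j ∈ range J, blk S b K (2 * (j + j0) + e + 1) α := by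
  have hb0 : 0 < b := by omega
  have hK0 : 0 < K := by omega
  have hbR : (1 : ℝ) < b := by exact_mod_cast (by omega : 1 < b)
  have hKR : (0 : ℝ) < K := by exact_mod_cast hK0
  have hlb : 0 < Real.log b := Real.log_pos hbR
  have hmono : Monotone (fun j : ℕ => K ^ (2 * (j + j0) + e)) := fun j j' hjj =>
    Nat.pow_le_pow_right hK0 (by omega)
  have key := dev_ae (u := u) (s := s) hb0 (q := c * Real.log K) (R := K) (ε := ε) hKR hε
    (fun j : ℕ => K ^ (2 * (j + j0) + e)) hmono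
    (hs.trans (Nat.pow_le_pow_right hK0 (by omega)))
    (fun j a => ∑ n ∈ Ico (K ^ (2 * (j + j0) + e + 1)) (K ^ (2 * (j + j0) + e + 2)),
      if a / b ^ (K ^ (2 * (j + j0) + e + 2) - n) ∈ S then 1 / (n : ℝ) else 0)
    (fun j a => Finset.sum_nonneg fun n _ => by split_ifs <;> positivity)
    (fun j a => ?_) (fun j a' h1 h2 => ?_)
  · filter_upwards [key] with α hα h1 h2
    filter_upwards [hα h1 h2] with J hJ
    refine hJ.trans_le (le_of_eq ?_)
    refine Finset.sum_congr rfl fun j _ => ?_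
    unfold blk
    rw [show 2 * (j + 1 + j0) + e = 2 * (j + j0) + e + 2 by ring]
    refine Finset.sum_congr rfl fun n hn => ?_
    rw [mem_Ico] at hn
    rw [floor_level hb0 hn.2.le]
  · have h3 : ∀ n ∈ Ico (K ^ (2 * (j + j0) + e + 1)) (K ^ (2 * (j + j0) + e + 2)),
        (if a / b ^ (K ^ (2 * (j + j0) + e + 2) - n) ∈ S then 1 / (n : ℝ) else 0) ≤ 1 / (n : ℝ) := by
      intro n _
      split_ifs
      · exact le_rfl
      · positivity
    refine (Finset.sum_le_sum h3).trans ?_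
    rw [show K ^ (2 * (j + j0) + e + 2) = K * K ^ (2 * (j + j0) + e + 1) by ring]
    exact sum_inv_le (Nat.pow_pos hK0)
  · set ℓ := K ^ (2 * (j + j0) + e) with hℓ
    have hℓ0 : 0 < ℓ := Nat.pow_pos hK0
    have en0 : K ^ (2 * (j + j0) + e + 1) = K * ℓ := by rw [hℓ]; ring
    have eL : K ^ (2 * (j + j0) + e + 2) = K * (K * ℓ) := by rw [hℓ]; ring
    have eL' : K ^ (2 * (j + 1 + j0) + e) = K * (K * ℓ) := by rw [hℓ]; ring
    rw [en0, eL, eL']
    have hℓK : ℓ ≤ K * ℓ := Nat.le_mul_of_pos_left ℓ hK0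
    have hj0 : K ^ (2 * j0) ≤ ℓ := Nat.pow_le_pow_right hK0 (by omega)
    refine le_trans ?_ (block_sum (c := c) hb0 hℓK fun n hn => ?_)
    · have h3 : Real.log K ≤ ∑ n ∈ Ico (K * ℓ) (K * (K * ℓ)), 1 / (n : ℝ) := by
        have h4 := sum_inv_ge (n0 := K * ℓ) (by positivity) (K * (K * ℓ) - K * ℓ)
        have e5 : K * ℓ + (K * (K * ℓ) - K * ℓ) = K * (K * ℓ) := by
          have : K * ℓ ≤ K * (K * ℓ) := Nat.le_mul_of_pos_left _ hK0
          omega
        rw [e5] at h4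
        refine le_trans (le_of_eq ?_) h4
        have hKl : (0 : ℝ) < ((K * ℓ : ℕ) : ℝ) := by exact_mod_cast (by positivity : 0 < K * ℓ)
        rw [← Real.log_div (by positivity) hKl.ne']
        congr 1
        push_cast
        have : (0 : ℝ) < ℓ := by exact_mod_cast hℓ0
        field_simp
      have h5 : (0 : ℝ) ≤ (b : ℝ) ^ (K * (K * ℓ) - ℓ) := by positivity
      gcongr
    · rw [mem_Ico] at hn
      -- the interval of integers at the level `n`
      have hY2 : 2 * b ^ (n - ℓ) ≤ a' * b ^ (n - ℓ) := by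
        apply Nat.mul_le_mul_right
        exact le_trans hu (le_trans (Nat.le_mul_of_pos_right u (Nat.pow_pos hb0)) h1)
      have hnℓ : ℓ ≤ n - ℓ := by
        have : 2 * ℓ ≤ K * ℓ := Nat.mul_le_mul_right ℓ hK
        omega
      have hYX0 : X0 ≤ b ^ (n - ℓ) := by
        calc X0 ≤ ℓ := hX0.trans hj0
          _ ≤ n - ℓ := hnℓ
          _ ≤ b ^ (n - ℓ) := (Nat.lt_pow_self (by omega)).le
      have h6 := hS (a' * b ^ (n - ℓ)) (b ^ (n - ℓ)) hYX0 ?_ hY2
      · push_cast at h6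
        refine h6.trans (le_of_eq ?_)
        rw [add_mul, one_mul]
      · -- the size
        have hnR : (0 : ℝ) < n := by
          have : 0 < n := by omega
          exact_mod_cast this
        have hX : (0 : ℝ) < ((a' * b ^ (n - ℓ) : ℕ) : ℝ) := by
          have h7 : 0 < b ^ (n - ℓ) := Nat.pow_pos hb0
          have : 0 < a' * b ^ (n - ℓ) := by omega
          exact_mod_cast this
        have hXle : ((a' * b ^ (n - ℓ) : ℕ) : ℝ) ≤ (u + 1) * (b : ℝ) ^ n := by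
          have h7 : a' * b ^ (n - ℓ) ≤ (u + 1) * b ^ n := by
            calc a' * b ^ (n - ℓ) ≤ ((u + 1) * b ^ (ℓ - s)) * b ^ (n - ℓ) := Nat.mul_le_mul_right _ h2.le
              _ = (u + 1) * b ^ ((ℓ - s) + (n - ℓ)) := by rw [pow_add]; ring
              _ ≤ (u + 1) * b ^ n := by
                  apply Nat.mul_le_mul_left
                  exact Nat.pow_le_pow_right hb0 (by omega)
          exact_mod_cast h7
        have hlogX : Real.log ((a' * b ^ (n - ℓ) : ℕ) : ℝ) ≤ Real.log (u + 1) + n * Real.log b := by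
          refine (Real.log_le_log hX hXle).trans (le_of_eq ?_)
          rw [Real.log_mul (by positivity) (by positivity), Real.log_pow]
        have hKn : (K : ℝ) * ℓ ≤ n := by exact_mod_cast hn.1
        have hℓn : (ℓ : ℝ) ≤ n * ((1 - θ) / 2) := by
          have h8 : (ℓ : ℝ) ≤ n * (1 / K) := by
            rw [mul_one_div, le_div_iff₀ hKR]
            linarith
          exact h8.trans (mul_le_mul_of_nonneg_left hKθ hnR.le)
        have h1θ : 0 < (1 - θ) / 2 := lt_of_lt_of_le (by positivity) hKθ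
        have hln : (K : ℝ) ^ (2 * j0) ≤ n := by
          have : K ^ (2 * j0) ≤ n := by omega
          exact_mod_cast this
        have hlog2 : Real.log (u + 1) ≤ n * ((1 - θ) / 2) * Real.log b := by
          refine hlog.trans ?_
          gcongr
        have hfin : θ * Real.log ((a' * b ^ (n - ℓ) : ℕ) : ℝ) ≤ ((n : ℝ) - ℓ) * Real.log b := by
          have h9 : θ * Real.log ((a' * b ^ (n - ℓ) : ℕ) : ℝ) ≤ θ * (Real.log (u + 1) + n * Real.log b) :=
            mul_le_mul_of_nonneg_left hlogX hθ0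
          have h10 : θ * Real.log (u + 1) ≤ Real.log (u + 1) := by
            have h11 : 0 ≤ Real.log ((u : ℝ) + 1) := Real.log_nonneg (by
              have : (0 : ℝ) ≤ u := Nat.cast_nonneg u
              linarith)
            have : θ ≤ 1 := by linarith
            nlinarith
          have h12 : (ℓ : ℝ) * Real.log b ≤ n * ((1 - θ) / 2) * Real.log b :=
            mul_le_mul_of_nonneg_right hℓn hlb.le
          nlinarith
        rw [← Real.log_le_log_iff (by positivity) (by positivity), Real.log_rpow hX]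
        push_cast
        rw [Real.log_pow, Nat.cast_sub (by omega)]
        push_cast at hfin
        exact hfin

open Classical in
/-- one interval of amplitudes -/
lemma one_interval {b : ℕ} (hb : 2 ≤ b) {S : Set ℕ} {c θ : ℝ} (hc : 0 ≤ c) (hθ0 : 0 ≤ θ) (hθ1 : θ < 1) (X0 : ℕ)
    (hS : ∀ X Y : ℕ, X0 ≤ Y → (X : ℝ) ^ θ ≤ Y → 2 * Y ≤ X →
      c * Y ≤ (((Ico X (X + Y)).filter (fun m => m ∈ S)).card : ℝ))
    {u s : ℕ} (hu : 2 ≤ u) {c' : ℝ} (hc' : c' < c) :
    ∀ᵐ α : ℝ, (u : ℝ) / b ^ s ≤ α → α < (u + 1) / b ^ s → ∀ᶠ N : ℕ in atTop,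
      c' * Real.log N ≤ ∑ n ∈ (Icc 1 N).filter (fun n => ⌊α * (b : ℝ) ^ n⌋₊ ∈ S), 1 / (n : ℝ) := by
  have hb0 : 0 < b := by omega
  have hbR : (1 : ℝ) < b := by exact_mod_cast (by omega : 1 < b)
  have hlb : 0 < Real.log b := Real.log_pos hbR
  have h1θ : 0 < (1 - θ) / 2 := by linarith
  obtain ⟨K, hK, hKθ⟩ : ∃ K : ℕ, 2 ≤ K ∧ 1 / (K : ℝ) ≤ (1 - θ) / 2 := by
    obtain ⟨k, hk⟩ := exists_nat_one_div_lt h1θ
    refine ⟨k + 2, by omega, le_trans ?_ hk.le⟩
    apply one_div_le_one_div_of_le (by positivity)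
    push_cast
    linarith
  have hK0 : 0 < K := by omega
  have hKR : (1 : ℝ) < K := by exact_mod_cast (by omega : 1 < K)
  have hlK : 0 < Real.log K := Real.log_pos hKR
  obtain ⟨T, hT⟩ := exists_nat_gt (Real.log (u + 1) / ((1 - θ) / 2 * Real.log b))
  set j0 : ℕ := s + X0 + T with hj0
  have hpow : j0 ≤ K ^ (2 * j0) := by
    calc j0 ≤ 2 * j0 := by omega
      _ ≤ K ^ (2 * j0) := (Nat.lt_pow_self (by omega)).le
  have hlog : Real.log (u + 1) ≤ (K : ℝ) ^ (2 * j0) * ((1 - θ) / 2) * Real.log b := by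
    rw [div_lt_iff₀ (by positivity)] at hT
    have h1 : (T : ℝ) ≤ (K : ℝ) ^ (2 * j0) := by
      have : T ≤ K ^ (2 * j0) := le_trans (by omega) hpow
      exact_mod_cast this
    have h2 : (T : ℝ) * ((1 - θ) / 2 * Real.log b) ≤ (K : ℝ) ^ (2 * j0) * ((1 - θ) / 2 * Real.log b) :=
      mul_le_mul_of_nonneg_right h1 (by positivity)
    linarith
  set ε : ℝ := (c - c') * Real.log K / 2 with hε
  have hε0 : 0 < ε := by
    have : 0 < c - c' := by linarith
    positivity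
  filter_upwards [parity hb hc hθ0 X0 hS hu hK hKθ (s := s) (j0 := j0) (by omega) (by omega) hlog 0 hε0,
    parity hb hc hθ0 X0 hS hu hK hKθ (s := s) (j0 := j0) (by omega) (by omega) hlog 1 hε0] with α ha hb' h1 h2
  obtain ⟨J1, hJ1⟩ := eventually_atTop.1 ((ha h1 h2).and (hb' h1 h2))
  -- the number of blocks
  obtain ⟨J2, hJ2⟩ := exists_nat_gt (|c'| * (2 * j0 + 3) / (c - c'))
  filter_upwards [eventually_ge_atTop (K ^ (2 * (J1 + J2 + j0) + 3))] with N hN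
  have hN0 : N ≠ 0 := by
    have : 0 < K ^ (2 * (J1 + J2 + j0) + 3) := Nat.pow_pos hK0
    omega
  set i := Nat.log K N with hi
  have hi1 : K ^ i ≤ N := Nat.pow_log_le_self K hN0
  have hi2 : N < K ^ (i + 1) := Nat.lt_pow_succ_log_self (by omega) N
  have hi3 : 2 * (J1 + J2 + j0) + 3 ≤ i := (Nat.le_log_iff_pow_le (by omega) hN0).2 hN
  set J := (i - 1) / 2 - j0 with hJ
  have hJa : J1 + J2 ≤ J := by omega
  have hJb : 2 * (J + j0) + 1 ≤ i := by omega
  have hJc : i + 1 ≤ 2 * J + 2 * j0 + 3 := by omega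
  have hJ0 := hJ1 J (by omega)
  have hsum : 2 * (c * Real.log K - ε) * J ≤
      ∑ n ∈ (Icc 1 N).filter (fun n => ⌊α * (b : ℝ) ^ n⌋₊ ∈ S), 1 / (n : ℝ) := by
    have h3 := blk_sum S b (K := K) (by omega) j0 J α
    rw [sum_add_distrib] at h3
    have h4 : ∑ n ∈ Ico (K ^ (2 * j0 + 1)) (K ^ (2 * (J + j0) + 1)),
        (if ⌊α * (b : ℝ) ^ n⌋₊ ∈ S then 1 / (n : ℝ) else 0) ≤
        ∑ n ∈ (Icc 1 N).filter (fun n => ⌊α * (b : ℝ) ^ n⌋₊ ∈ S), 1 / (n : ℝ) := by
      rw [← Finset.sum_filter]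
      apply Finset.sum_le_sum_of_subset_of_nonneg
      · intro n hn
        rw [mem_filter, mem_Ico] at hn
        rw [mem_filter, mem_Icc]
        have h5 : 0 < K ^ (2 * j0 + 1) := Nat.pow_pos hK0
        have h6 : K ^ (2 * (J + j0) + 1) ≤ K ^ i := Nat.pow_le_pow_right hK0 hJb
        exact ⟨⟨by omega, by omega⟩, hn.2⟩
      · intro n _ _
        positivity
    have h5 := hJ0.1
    have h6 := hJ0.2
    simp only [add_zero] at h5
    rw [← h3] at h4
    linarith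
  refine le_trans ?_ hsum
  have hlN : Real.log N ≤ (2 * J + 2 * j0 + 3) * Real.log K := by
    have h3 : (N : ℝ) ≤ (K : ℝ) ^ (2 * J + 2 * j0 + 3) := by
      have : N ≤ K ^ (2 * J + 2 * j0 + 3) := hi2.le.trans (Nat.pow_le_pow_right hK0 hJc)
      exact_mod_cast this
    have h4 := Real.log_le_log (by exact_mod_cast Nat.pos_of_ne_zero hN0) h3
    rw [Real.log_pow] at h4
    push_cast at h4
    exact h4
  have hlN0 : 0 ≤ Real.log N := Real.log_natCast_nonneg N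
  have hcc : 0 < c - c' := by linarith
  have hJR : |c'| * (2 * j0 + 3) ≤ (c - c') * J := by
    rw [div_lt_iff₀ hcc] at hJ2
    have h3 : (J2 : ℝ) ≤ J := by exact_mod_cast (by omega : J2 ≤ J)
    have h4 := mul_le_mul_of_nonneg_right h3 hcc.le
    linarith
  have hJ00 : (0 : ℝ) ≤ J := Nat.cast_nonneg J
  have h7 : c' * Real.log N ≤ (|c'| * (2 * j0 + 3) + 2 * c' * J) * Real.log K := by
    rcases le_or_gt 0 c' with hc0 | hc0
    · rw [abs_of_nonneg hc0]
      have := mul_le_mul_of_nonneg_left hlN hc0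
      linarith
    · rw [abs_of_neg hc0]
      have h8 : (2 * J + 2 * j0 + 1 : ℝ) * Real.log K ≤ Real.log N := by
        have h3 : (K : ℝ) ^ (2 * J + 2 * j0 + 1) ≤ N := by
          have : K ^ (2 * J + 2 * j0 + 1) ≤ N := (Nat.pow_le_pow_right hK0 (by omega)).trans hi1
          exact_mod_cast this
        have h4 := Real.log_le_log (by positivity) h3
        rw [Real.log_pow] at h4
        push_cast at h4
        exact h4
      have h9 := mul_le_mul_of_nonpos_left h8 hc0.le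
      have hj : (0 : ℝ) ≤ j0 := Nat.cast_nonneg j0
      nlinarith [mul_pos (neg_pos.2 hc0) hlK]
  refine h7.trans ?_
  have h8 : |c'| * (2 * j0 + 3) + 2 * c' * J ≤ (c + c') * J := by linarith
  have h9 := mul_le_mul_of_nonneg_right h8 hlK.le
  rw [hε]
  linarith

open Classical in
/-- **The logarithmic density.** If a set `S` of integers contains at least `c Y` elements of `[X, X + Y)` whenever
`X ^ θ ≤ Y ≤ X / 2`, where `θ < 1`, and `Y` is large then for almost every `α > 0` the set of the `n` with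
`⌊α b ^ n⌋ ∈ S` has the lower logarithmic density at least `c`. -/
theorem log_dens {b : ℕ} (hb : 2 ≤ b) {S : Set ℕ} {c θ : ℝ} (hc : 0 ≤ c) (hθ0 : 0 ≤ θ) (hθ1 : θ < 1) (X0 : ℕ)
    (hS : ∀ X Y : ℕ, X0 ≤ Y → (X : ℝ) ^ θ ≤ Y → 2 * Y ≤ X →
      c * Y ≤ (((Ico X (X + Y)).filter (fun m => m ∈ S)).card : ℝ)) :
    ∀ᵐ α : ℝ, 0 < α → LogDens {n : ℕ | ⌊α * (b : ℝ) ^ n⌋₊ ∈ S} c := by
  have h1 : ∀ z : (ℕ × ℕ) × ℚ, ∀ᵐ α : ℝ, 2 ≤ z.1.1 → (z.2 : ℝ) < c → (z.1.1 : ℝ) / b ^ z.1.2 ≤ α →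
      α < (z.1.1 + 1) / b ^ z.1.2 → ∀ᶠ N : ℕ in atTop,
      (z.2 : ℝ) * Real.log N ≤ ∑ n ∈ (Icc 1 N).filter (fun n => ⌊α * (b : ℝ) ^ n⌋₊ ∈ S), 1 / (n : ℝ) := by
    rintro ⟨⟨u, s⟩, q⟩
    by_cases hz : 2 ≤ u ∧ (q : ℝ) < c
    · filter_upwards [one_interval hb hc hθ0 hθ1 X0 hS (s := s) hz.1 hz.2] with α hα _ _ h1 h2
      exact hα h1 h2
    · exact Eventually.of_forall fun α h1 h2 => absurd ⟨h1, h2⟩ hz
  filter_upwards [ae_all_iff.2 h1] with α hα hα0 c' hc'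
  have hb1 : (1 : ℝ) < b := by exact_mod_cast (by omega : 1 < b)
  obtain ⟨s, hs⟩ := pow_unbounded_of_one_lt (2 / α) hb1
  rw [div_lt_iff₀ hα0] at hs
  obtain ⟨q, hq1, hq2⟩ := exists_rat_btwn hc'
  have hP : (0 : ℝ) < (b : ℝ) ^ s := by positivity
  have h2 := hα ((⌊α * (b : ℝ) ^ s⌋₊, s), q) (Nat.le_floor (by push_cast; linarith)) hq2
    (by
      rw [div_le_iff₀ hP]
      exact Nat.floor_le (by positivity))
    (by
      rw [lt_div_iff₀ hP]
      exact Nat.lt_floor_add_one _)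
  filter_upwards [h2] with N hN
  refine le_trans (mul_le_mul_of_nonneg_right hq1.le (Real.log_natCast_nonneg N)) (hN.trans (le_of_eq ?_))
  rfl

end Pool.Agent.V60.LD
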