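import Mathlib

/-! Integers `x` such that some square `≠ x ^ 3` is at distance at most `x / 32` from `x ^ 3`. -/

set_option autoImplicit false

open Finset

namespace Pool.Agent.V60.Hall

/-- the positive integers `x` with `0 < |y ^ 2 - x ^ 3| ≤ x / 32` for some integer `y` -/
def E : Set ℕ := {x | ∃ y : ℕ, (y : ℤ) ^ 2 ≠ (x : ℤ) ^ 3 ∧ 32 * |(y : ℤ) ^ 2 - (x : ℤ) ^ 3| ≤ x}

/-- the distance of `y` and `x ^ (3 / 2)` -/
lemma err {x y : ℕ} {r s : ℝ} (hr : 0 < r) (hs : r < s) (hs2 : s ^ 2 = x)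
    (h : 32 * |(y : ℤ) ^ 2 - (x : ℤ) ^ 3| ≤ x) : |(y : ℝ) - s ^ 3| ≤ 1 / (32 * r) := by
  have hs0 : 0 < s := hr.trans hs
  have h1 : 32 * |(y : ℝ) ^ 2 - (x : ℝ) ^ 3| ≤ x := by exact_mod_cast h
  have e : (y : ℝ) ^ 2 - (x : ℝ) ^ 3 = (y - s ^ 3) * (y + s ^ 3) := by
    rw [← hs2]
    ring
  rw [e, abs_mul, abs_of_nonneg (by positivity : (0 : ℝ) ≤ y + s ^ 3), ← hs2] at h1
  rw [le_div_iff₀ (by positivity)]
  have h2 : |(y : ℝ) - s ^ 3| * s ^ 3 ≤ |(y : ℝ) - s ^ 3| * (y + s ^ 3) :=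
    mul_le_mul_of_nonneg_left (by linarith [(Nat.cast_nonneg y : (0 : ℝ) ≤ y)]) (abs_nonneg _)
  have h3 : (|(y : ℝ) - s ^ 3| * (32 * s) - 1) * s ^ 2 ≤ 0 := by nlinarith
  have h4 : |(y : ℝ) - s ^ 3| * (32 * s) - 1 ≤ 0 := by
    by_contra hcon
    push Not at hcon
    have := mul_pos hcon (show (0 : ℝ) < s ^ 2 by positivity)
    linarith
  have h5 : |(y : ℝ) - s ^ 3| * (32 * r) ≤ |(y : ℝ) - s ^ 3| * (32 * s) :=
    mul_le_mul_of_nonneg_left (by linarith) (abs_nonneg _)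
  linarith

/-- three elements of `E` in `(N, 2 N]` are not in an interval of length `N ^ (1 / 6)` -/
lemma three {N x1 x2 x3 : ℕ} (h1 : x1 ∈ E) (h2 : x2 ∈ E) (h3 : x3 ∈ E) (hN : N < x1) (h12 : x1 < x2)
    (h23 : x2 < x3) (hx3 : x3 ≤ 2 * N) (hL : (x3 - x1) ^ 6 ≤ N) : False := by
  obtain ⟨y1, -, g1⟩ := h1
  obtain ⟨y2, -, g2⟩ := h2
  obtain ⟨y3, -, g3⟩ := h3
  have hN0 : 0 < N := by omega
  have hNR : (0 : ℝ) < N := by exact_mod_cast hN0
  obtain ⟨r, hr, hr2⟩ : ∃ r : ℝ, 0 < r ∧ r ^ 2 = N := ⟨√N, Real.sqrt_pos.2 hNR, Real.sq_sqrt hNR.le⟩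
  have hx1 : (N : ℝ) < x1 := by exact_mod_cast hN
  have hx12 : (x1 : ℝ) + 1 ≤ x2 := by exact_mod_cast h12
  have hx23 : (x2 : ℝ) + 1 ≤ x3 := by exact_mod_cast h23
  have hx3' : (x3 : ℝ) ≤ 2 * N := by exact_mod_cast hx3
  have hsq : ∀ x : ℕ, (N : ℝ) < x → (x : ℝ) ≤ 2 * N → ∃ s : ℝ, r < s ∧ s ≤ 1.42 * r ∧ s ^ 2 = x := by
    intro x hx hx'
    refine ⟨√x, ?_, ?_, Real.sq_sqrt (by linarith)⟩
    · apply lt_of_pow_lt_pow_left₀ 2 (Real.sqrt_nonneg _)
      rw [Real.sq_sqrt (by linarith), hr2]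
      exact hx
    · apply le_of_sq_le_sq _ (by positivity)
      rw [Real.sq_sqrt (by linarith), mul_pow, hr2]
      linarith
  obtain ⟨s1, a1, b1, e1⟩ := hsq x1 hx1 (by linarith)
  obtain ⟨s2, a2, b2, e2⟩ := hsq x2 (by linarith) (by linarith)
  obtain ⟨s3, a3, b3, e3⟩ := hsq x3 (by linarith) (by linarith)
  have f1 := err hr a1 e1 g1
  have f2 := err hr a2 e2 g2
  have f3 := err hr a3 e3 g3
  have hs12 : s1 < s2 := by
    apply lt_of_pow_lt_pow_left₀ 2 (by linarith)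
    rw [e1, e2]; linarith
  have hs23 : s2 < s3 := by
    apply lt_of_pow_lt_pow_left₀ 2 (by linarith)
    rw [e2, e3]; linarith
  set L : ℝ := (x3 : ℝ) - x1 with hLdef
  have hL2 : 2 ≤ L := by rw [hLdef]; linarith
  -- the determinant
  set D : ℤ := ((x2 : ℤ) - x1) * (y3 - y1) - ((x3 : ℤ) - x1) * (y2 - y1) with hD
  set V : ℝ := (s2 - s1) * (s3 - s1) * (s3 - s2) with hV
  have hV0 : 0 < V := by
    rw [hV]
    have u1 : 0 < s2 - s1 := by linarith
    have u2 : 0 < s3 - s1 := by linarith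
    have u3 : 0 < s3 - s2 := by linarith
    positivity
  set P : ℝ := s1 * s2 + s2 * s3 + s1 * s3 with hP
  set Q : ℝ := (s1 + s2) * (s1 + s3) * (s2 + s3) with hQ
  have hW : V * Q = ((x2 : ℝ) - x1) * ((x3 : ℝ) - x1) * ((x3 : ℝ) - x2) := by
    rw [hV, hQ, ← e1, ← e2, ← e3]
    ring
  have hDR : (D : ℝ) = V * P + (((x2 : ℝ) - x1) * ((y3 - s3 ^ 3) - (y1 - s1 ^ 3)) -
      ((x3 : ℝ) - x1) * ((y2 - s2 ^ 3) - (y1 - s1 ^ 3))) := by
    rw [hD, hV, hP]
    push_cast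
    rw [← e1, ← e2, ← e3]
    ring
  have hW1 : L ≤ V * Q := by
    rw [hW, hLdef]
    have u1 : 1 ≤ (x2 : ℝ) - x1 := by linarith
    have u2 : 1 ≤ (x3 : ℝ) - x2 := by linarith
    have u3 : 0 ≤ (x3 : ℝ) - x1 := by linarith
    have u4 : 1 ≤ ((x2 : ℝ) - x1) * ((x3 : ℝ) - x2) := one_le_mul_of_one_le_of_one_le u1 u2
    have u5 := mul_le_mul_of_nonneg_right u4 u3
    have u6 : ((x2 : ℝ) - x1) * ((x3 : ℝ) - x2) * ((x3 : ℝ) - x1) =
      ((x2 : ℝ) - x1) * ((x3 : ℝ) - x1) * ((x3 : ℝ) - x2) := by ring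
    rw [← u6]
    linarith
  have hW2 : V * Q ≤ L ^ 3 := by
    rw [hW, hLdef]
    have u1 : (x2 : ℝ) - x1 ≤ (x3 : ℝ) - x1 := by linarith
    have u2 : (x3 : ℝ) - x2 ≤ (x3 : ℝ) - x1 := by linarith
    have u3 : 0 ≤ (x2 : ℝ) - x1 := by linarith
    have u4 : 0 ≤ (x3 : ℝ) - x2 := by linarith
    have u5 : 0 ≤ (x3 : ℝ) - x1 := by linarith
    calc ((x2 : ℝ) - x1) * ((x3 : ℝ) - x1) * ((x3 : ℝ) - x2)
        ≤ ((x3 : ℝ) - x1) * ((x3 : ℝ) - x1) * ((x3 : ℝ) - x1) := by gcongr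
      _ = ((x3 : ℝ) - x1) ^ 3 := by ring
  have hL3 : L ^ 3 ≤ r := by
    have u1 : L ^ 6 ≤ (N : ℝ) := by
      have u2 : (((x3 - x1 : ℕ) : ℝ)) ^ 6 ≤ N := by exact_mod_cast hL
      rw [Nat.cast_sub (by omega)] at u2
      exact u2
    have u3 : (L ^ 3) ^ 2 ≤ r ^ 2 := by
      rw [hr2]
      calc (L ^ 3) ^ 2 = L ^ 6 := by ring
        _ ≤ (N : ℝ) := u1
    exact le_of_sq_le_sq u3 hr.le
  have hs10 : 0 < s1 := by linarith
  have hs20 : 0 < s2 := by linarith
  have hs30 : 0 < s3 := by linarith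
  have hP1 : 3 * r ^ 2 ≤ P := by
    rw [hP]
    have u1 : r * r ≤ s1 * s2 := by gcongr
    have u2 : r * r ≤ s2 * s3 := by gcongr
    have u3 : r * r ≤ s1 * s3 := by gcongr
    linarith [sq r]
  have hP2 : P ≤ 6.05 * r ^ 2 := by
    rw [hP]
    have u1 : s1 * s2 ≤ (1.42 * r) * (1.42 * r) := by gcongr
    have u2 : s2 * s3 ≤ (1.42 * r) * (1.42 * r) := by gcongr
    have u3 : s1 * s3 ≤ (1.42 * r) * (1.42 * r) := by gcongr
    have u4 : (1.42 * r) * (1.42 * r) = 2.0164 * r ^ 2 := by ring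
    have u5 : 0 < r ^ 2 := by positivity
    linarith
  have hQ1 : 8 * r ^ 3 ≤ Q := by
    rw [hQ]
    calc 8 * r ^ 3 = (r + r) * (r + r) * (r + r) := by ring
      _ ≤ (s1 + s2) * (s1 + s3) * (s2 + s3) := by gcongr
  have hQ2 : Q ≤ 22.95 * r ^ 3 := by
    rw [hQ]
    calc (s1 + s2) * (s1 + s3) * (s2 + s3) ≤ (1.42 * r + 1.42 * r) * (1.42 * r + 1.42 * r) *
          (1.42 * r + 1.42 * r) := by gcongr
      _ = 22.906304 * r ^ 3 := by ring
      _ ≤ 22.95 * r ^ 3 := by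
          have : 0 < r ^ 3 := by positivity
          linarith
  -- bounds for the main term
  have hQ0 : 0 < Q := lt_of_lt_of_le (by positivity) hQ1
  have hP0 : 0 < P := lt_of_lt_of_le (by positivity) hP1
  have hr3 : 0 < r ^ 3 := by positivity
  have hM1 : L / (8 * r) < V * P := by
    rw [div_lt_iff₀ (by positivity)]
    have u1 : L * (3 * r ^ 2) ≤ (V * Q) * P :=
      mul_le_mul hW1 hP1 (by positivity) (by positivity)
    have u2 : (V * Q) * P ≤ (V * P) * (22.95 * r ^ 3) := by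
      have := mul_le_mul_of_nonneg_left hQ2 (mul_pos hV0 hP0).le
      have e4 : (V * Q) * P = V * P * Q := by ring
      linarith
    have u3 : (L * 3) * r ^ 2 ≤ ((V * P) * (22.95 * r)) * r ^ 2 := by
      have : (V * P) * (22.95 * r ^ 3) = ((V * P) * (22.95 * r)) * r ^ 2 := by ring
      linarith
    have u4 : L * 3 ≤ (V * P) * (22.95 * r) := le_of_mul_le_mul_right u3 (by positivity)
    have u5 : 0 < V * P * r := by positivity
    have e6 : (V * P) * (22.95 * r) = 22.95 * (V * P * r) := by ring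
    have e7 : V * P * (8 * r) = 8 * (V * P * r) := by ring
    rw [e7]
    rw [e6] at u4
    linarith
  have hM2 : V * P ≤ 0.76 := by
    have u1 : (V * P) * (8 * r ^ 3) ≤ L ^ 3 * (6.05 * r ^ 2) := by
      calc (V * P) * (8 * r ^ 3) ≤ (V * P) * Q := mul_le_mul_of_nonneg_left hQ1 (by positivity)
        _ = (V * Q) * P := by ring
        _ ≤ L ^ 3 * (6.05 * r ^ 2) := mul_le_mul hW2 hP2 hP0.le (by positivity)
    have u2 : L ^ 3 * (6.05 * r ^ 2) ≤ r * (6.05 * r ^ 2) := by gcongr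
    have u3 : (V * P * 8) * r ^ 3 ≤ 6.05 * r ^ 3 := by
      have e4 : (V * P) * (8 * r ^ 3) = (V * P * 8) * r ^ 3 := by ring
      have e5 : r * (6.05 * r ^ 2) = 6.05 * r ^ 3 := by ring
      linarith
    have u4 : V * P * 8 ≤ 6.05 := le_of_mul_le_mul_right u3 hr3
    linarith
  -- the error
  have hE : |((x2 : ℝ) - x1) * ((y3 - s3 ^ 3) - (y1 - s1 ^ 3)) -
      ((x3 : ℝ) - x1) * ((y2 - s2 ^ 3) - (y1 - s1 ^ 3))| ≤ L / (8 * r) := by
    have u1 : |((x2 : ℝ) - x1) * ((y3 - s3 ^ 3) - (y1 - s1 ^ 3))| ≤ L * (1 / (32 * r) + 1 / (32 * r)) := by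
      rw [abs_mul]
      apply mul_le_mul _ _ (abs_nonneg _) (by linarith)
      · rw [abs_of_nonneg (by linarith)]
        linarith
      · exact (abs_sub _ _).trans (add_le_add f3 f1)
    have u2 : |((x3 : ℝ) - x1) * ((y2 - s2 ^ 3) - (y1 - s1 ^ 3))| ≤ L * (1 / (32 * r) + 1 / (32 * r)) := by
      rw [abs_mul]
      apply mul_le_mul _ _ (abs_nonneg _) (by linarith)
      · rw [abs_of_nonneg (by linarith)]
      · exact (abs_sub _ _).trans (add_le_add f2 f1)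
    refine (abs_sub _ _).trans ((add_le_add u1 u2).trans (le_of_eq ?_))
    field_simp
    ring
  have hE2 : L / (8 * r) ≤ 1 / 8 := by
    rw [div_le_iff₀ (by positivity)]
    have : L ≤ L ^ 3 := le_self_pow₀ (by linarith) (by norm_num)
    linarith
  have hE3 := abs_le.1 hE
  have hD0 : (0 : ℝ) < D := by
    rw [hDR]
    linarith [hE3.1]
  have hD1 : (D : ℝ) < 1 := by
    rw [hDR]
    have := hE3.2
    norm_num at hM2 ⊢
    linarith
  have hD0' : 0 < D := by exact_mod_cast hD0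
  have hD1' : D < 1 := by exact_mod_cast hD1
  omega

open Classical in
/-- the count in a dyadic block -/
lemma block (N L : ℕ) (hL0 : 0 < L) (hL : L ^ 6 ≤ N) :
    ((Ioc N (2 * N)).filter (fun x => x ∈ E)).card ≤ 2 * (N / L + 2) := by
  set A := (Ioc N (2 * N)).filter (fun x => x ∈ E) with hA
  have h1 : A.card ≤ 2 * (A.image (fun x => x / L)).card := by
    apply Finset.card_le_mul_card_image
    intro b _
    by_contra hcon
    push Not at hcon
    obtain ⟨x, hx, y, hy, z, hz, hxy, hxz, hyz⟩ := Finset.two_lt_card.1 hcon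
    -- sorted triples
    have key : ∀ x y z : ℕ, x ∈ A.filter (fun x => x / L = b) → y ∈ A.filter (fun x => x / L = b) →
        z ∈ A.filter (fun x => x / L = b) → x < y → y < z → False := by
      intro x y z hx hy hz h12 h23
      rw [mem_filter, hA, mem_filter, mem_Ioc] at hx hy hz
      refine three hx.1.2 hy.1.2 hz.1.2 hx.1.1.1 h12 h23 hz.1.1.2 (le_trans ?_ hL)
      apply Nat.pow_le_pow_left
      have h3 := Nat.div_mul_le_self x L
      have h4 := Nat.lt_div_mul_add (a := z) hL0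
      rw [hx.2] at h3
      rw [hz.2] at h4
      omega
    rcases lt_trichotomy x y with h | h | h
    · rcases lt_trichotomy y z with h' | h' | h'
      · exact key x y z hx hy hz h h'
      · exact hyz h'
      · rcases lt_trichotomy x z with h'' | h'' | h''
        · exact key x z y hx hz hy h'' h'
        · exact hxz h''
        · exact key z x y hz hx hy h'' h
    · exact hxy h
    · rcases lt_trichotomy x z with h' | h' | h'
      · exact key y x z hy hx hz h h'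
      · exact hxz h'
      · rcases lt_trichotomy y z with h'' | h'' | h''
        · exact key y z x hy hz hx h'' h'
        · exact hyz h''
        · exact key z y x hz hy hx h'' h
  refine h1.trans (Nat.mul_le_mul_left 2 ?_)
  have h2 : A.image (fun x => x / L) ⊆ Icc (N / L) (N / L + (N / L + 1)) := by
    intro b hb
    rw [mem_image] at hb
    obtain ⟨x, hx, rfl⟩ := hb
    rw [hA, mem_filter, mem_Ioc] at hx
    rw [mem_Icc]
    refine ⟨Nat.div_le_div_right hx.1.1.le, ?_⟩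
    have h3 : x / L ≤ 2 * N / L := Nat.div_le_div_right hx.1.2
    have h4 := Nat.lt_div_mul_add (a := N) hL0
    have h5 : 2 * N / L < N / L + (N / L + 1) + 1 := by
      rw [Nat.div_lt_iff_lt_mul hL0]
      nlinarith
    omega
  refine (card_le_card h2).trans ?_
  rw [Nat.card_Icc]
  generalize N / L = q
  omega

end Pool.Agent.V60.Hall
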