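import Pool.Agent.V60.LD.HallA
import Pool.Agent.V11109.WIN.Dyad

/-! The number of the integers `x ≤ X` such that some `x ^ 3 + A x` with a small `A` has a square nearby. -/

set_option autoImplicit false

open Finset Filter Topology

namespace Pool.Agent.V60.HallA

/-- the `x` such that `|y ^ 2 - x ^ 3 - A x| ≤ x / 128` for some integer `y` and some integer `|A| ≤ x ^ σ` -/
def F (σ : ℝ) : Set ℕ := {x | ∃ A : ℤ, |(A : ℝ)| ≤ (x : ℝ) ^ σ ∧ x ∈ E A}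

open Classical in
lemma block_real (σ ε : ℝ) (hσ0 : 0 ≤ σ) (hσ : σ < 1 / 6) (hε : 0 < ε) : ∃ N₀ : ℕ, ∀ N : ℕ, N₀ ≤ N →
    (((Ioc (N / 2) (2 * (N / 2))).filter (fun x => x ∈ F σ)).card : ℝ) ≤ (N : ℝ) ^ (5 / 6 + σ + ε) := by
  have hr : Tendsto (fun N : ℕ => (N : ℝ)) atTop atTop := tendsto_natCast_atTop_atTop
  have h1 : Tendsto (fun N : ℕ => (N : ℝ) ^ ε) atTop atTop := (tendsto_rpow_atTop hε).comp hr
  have h1' : Tendsto (fun N : ℕ => (N : ℝ) ^ (1 - σ)) atTop atTop := (tendsto_rpow_atTop (by linarith)).comp hr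
  obtain ⟨N₀, hN₀⟩ := eventually_atTop.1 ((h1.eventually_ge_atTop 24).and ((h1'.eventually_ge_atTop 24).and
    (eventually_ge_atTop 2002)))
  refine ⟨N₀, fun N hN => ?_⟩
  obtain ⟨g1, g3, g2⟩ := hN₀ N hN
  set M := N / 2 with hM
  have hM1 : 1000 ≤ M := by omega
  have hMN : M ≤ N := by omega
  have hMR : (1000 : ℝ) ≤ M := by exact_mod_cast hM1
  have hM0 : (0 : ℝ) < M := by linarith
  have hMNR : (M : ℝ) ≤ N := by exact_mod_cast hMN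
  have hN0 : (0 : ℝ) < N := by linarith
  have hN1 : (1 : ℝ) ≤ N := by linarith
  set L := ⌊(M : ℝ) ^ (1 / 6 : ℝ)⌋₊ with hL
  have hp : 1 ≤ (M : ℝ) ^ (1 / 6 : ℝ) := Real.one_le_rpow (by linarith) (by norm_num)
  have hL0 : 0 < L := Nat.floor_pos.2 hp
  have hL1 : (L : ℝ) ≤ (M : ℝ) ^ (1 / 6 : ℝ) := Nat.floor_le (by positivity)
  have hL6 : L ^ 6 ≤ M := by
    have h2 : (L : ℝ) ^ 6 ≤ M := by
      calc (L : ℝ) ^ 6 ≤ ((M : ℝ) ^ (1 / 6 : ℝ)) ^ 6 := by gcongr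
        _ = (M : ℝ) := by
          rw [← Real.rpow_natCast, ← Real.rpow_mul hM0.le]
          norm_num
    exact_mod_cast h2
  have hL2 : (M : ℝ) ^ (1 / 6 : ℝ) / 2 ≤ L := by
    have h2 := Nat.lt_floor_add_one ((M : ℝ) ^ (1 / 6 : ℝ))
    rw [← hL] at h2
    have h3 : (1 : ℝ) ≤ L := by exact_mod_cast hL0
    linarith
  set T : ℕ := ⌊(N : ℝ) ^ σ⌋₊ with hT
  have hTR : (T : ℝ) ≤ (N : ℝ) ^ σ := Nat.floor_le (by positivity)
  have hNσ : (1 : ℝ) ≤ (N : ℝ) ^ σ := Real.one_le_rpow hN1 hσ0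
  -- `6 T ≤ M`
  have hTM : 6 * T ≤ M := by
    have h2 : (N : ℝ) ^ (1 - σ) * (N : ℝ) ^ σ = N := by
      rw [← Real.rpow_add hN0]
      norm_num
    have h3 : (N : ℝ) ≤ 2 * M + 1 := by
      have : N ≤ 2 * M + 1 := by omega
      exact_mod_cast this
    have h4 : 24 * (N : ℝ) ^ σ ≤ N := by
      calc 24 * (N : ℝ) ^ σ ≤ (N : ℝ) ^ (1 - σ) * (N : ℝ) ^ σ := by gcongr
        _ = N := h2
    have h5 : ((6 * T : ℕ) : ℝ) ≤ M := by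
      push_cast
      linarith
    exact_mod_cast h5
  have hsub : (Ioc M (2 * M)).filter (fun x => x ∈ F σ) ⊆
      (Finset.Icc (-(T : ℤ)) T).biUnion (fun A => (Ioc M (2 * M)).filter (fun x => x ∈ E A)) := by
    intro x hx
    rw [mem_filter, mem_Ioc] at hx
    obtain ⟨⟨h2, h3⟩, A, hA, hE⟩ := hx
    rw [mem_biUnion]
    refine ⟨A, ?_, ?_⟩
    · have h4 : (x : ℝ) ≤ N := by
        have : x ≤ N := by omega
        exact_mod_cast this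
      have h5 : |(A : ℝ)| ≤ (N : ℝ) ^ σ := hA.trans (Real.rpow_le_rpow (Nat.cast_nonneg x) h4 hσ0)
      have h6 : A.natAbs ≤ T := by
        apply Nat.le_floor
        rw [Nat.cast_natAbs]
        push_cast
        exact h5
      rw [Finset.mem_Icc]
      omega
    · rw [mem_filter, mem_Ioc]
      exact ⟨⟨h2, h3⟩, hE⟩
  have hcard := (card_le_card hsub).trans card_biUnion_le
  have hb : ∀ A ∈ Finset.Icc (-(T : ℤ)) T, ((Ioc M (2 * M)).filter (fun x => x ∈ E A)).card ≤ 2 * (M / L + 2) := by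
    intro A hA
    rw [Finset.mem_Icc] at hA
    refine block A M L ?_ hM1 hL0 hL6
    have h2 : |A| ≤ T := abs_le.2 hA
    have h3 : ((6 * T : ℕ) : ℤ) ≤ M := by exact_mod_cast hTM
    push_cast at h3
    linarith
  have hcard2 := hcard.trans (Finset.sum_le_sum hb)
  rw [sum_const, smul_eq_mul, Int.card_Icc] at hcard2
  have e0 : ((T : ℤ) + 1 - -(T : ℤ)).toNat = 2 * T + 1 := by omega
  rw [e0] at hcard2
  have hb' : (((Ioc M (2 * M)).filter (fun x => x ∈ F σ)).card : ℝ) ≤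
      (2 * (T : ℝ) + 1) * (2 * (((M / L : ℕ) : ℝ) + 2)) := by
    exact_mod_cast hcard2
  refine hb'.trans ?_
  have h4 : ((M / L : ℕ) : ℝ) ≤ 2 * (M : ℝ) ^ (5 / 6 : ℝ) := by
    refine Nat.cast_div_le.trans ?_
    rw [div_le_iff₀ (by exact_mod_cast hL0)]
    have e : (M : ℝ) = (M : ℝ) ^ (5 / 6 : ℝ) * (M : ℝ) ^ (1 / 6 : ℝ) := by
      rw [← Real.rpow_add hM0]
      norm_num
    have h5 : 0 < (M : ℝ) ^ (5 / 6 : ℝ) := by positivity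
    calc (M : ℝ) = 2 * (M : ℝ) ^ (5 / 6 : ℝ) * ((M : ℝ) ^ (1 / 6 : ℝ) / 2) := by
          rw [mul_div_assoc', mul_assoc, ← e]
          ring
      _ ≤ 2 * (M : ℝ) ^ (5 / 6 : ℝ) * L := mul_le_mul_of_nonneg_left hL2 (by positivity)
  have h5 : (M : ℝ) ^ (5 / 6 : ℝ) ≤ (N : ℝ) ^ (5 / 6 : ℝ) := Real.rpow_le_rpow hM0.le hMNR (by norm_num)
  have h6 : (1 : ℝ) ≤ (N : ℝ) ^ (5 / 6 : ℝ) := Real.one_le_rpow hN1 (by norm_num)
  rw [Real.rpow_add hN0, Real.rpow_add hN0]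
  have h7 : 2 * (T : ℝ) + 1 ≤ 3 * (N : ℝ) ^ σ := by linarith
  have h8 : 2 * (((M / L : ℕ) : ℝ) + 2) ≤ 8 * (N : ℝ) ^ (5 / 6 : ℝ) := by linarith
  calc (2 * (T : ℝ) + 1) * (2 * (((M / L : ℕ) : ℝ) + 2)) ≤ (3 * (N : ℝ) ^ σ) * (8 * (N : ℝ) ^ (5 / 6 : ℝ)) := by
        gcongr
    _ = (N : ℝ) ^ (5 / 6 : ℝ) * (N : ℝ) ^ σ * 24 := by ring
    _ ≤ (N : ℝ) ^ (5 / 6 : ℝ) * (N : ℝ) ^ σ * (N : ℝ) ^ ε := by gcongr

open Classical in
/-- **The count.** -/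
theorem count (σ : ℝ) (hσ0 : 0 ≤ σ) (hσ : σ < 1 / 6) (ε : ℝ) (hε : 0 < ε) : ∃ C : ℝ, ∀ X : ℝ, 1 ≤ X →
    {t : ℕ | t ∈ F σ ∧ (t : ℝ) ≤ X}.Finite ∧
      ({t : ℕ | t ∈ F σ ∧ (t : ℝ) ≤ X}.ncard : ℝ) ≤ C * X ^ (5 / 6 + σ + ε) := by
  obtain ⟨N₀, hN₀⟩ := block_real σ ε hσ0 hσ hε
  obtain ⟨K, hK, h⟩ := Pool.Agent.V11109.WIN.count_dyadic (s := 5 / 6 + σ + ε) (by positivity) (F σ)
    (fun N => (Ioc (N / 2) (2 * (N / 2))).filter (fun x => x ∈ F σ)) N₀ hN₀ 0 (by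
      intro i _ m hm h1 h2
      rw [mem_filter, mem_Ioc]
      have e : 2 ^ (i + 1) / 2 = 2 ^ i := by rw [pow_succ]; omega
      rw [e]
      refine ⟨⟨h1, ?_⟩, hm⟩
      rw [pow_succ] at h2
      omega)
  exact ⟨K, h⟩

end Pool.Agent.V60.HallA
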