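import Pool.Agent.V60.LD.Hall
import Pool.Agent.V11109.WIN.Dyad

/-! The number of the integers up to `X` whose cube has a square nearby. -/

set_option autoImplicit false

open Finset Filter Topology

namespace Pool.Agent.V60.Hall

open Classical in
lemma block_real (ε : ℝ) (hε : 0 < ε) : ∃ N₀ : ℕ, ∀ N : ℕ, N₀ ≤ N →
    (((Ioc (N / 2) (2 * (N / 2))).filter (fun x => x ∈ E)).card : ℝ) ≤ (N : ℝ) ^ (5 / 6 + ε) := by
  have hr : Tendsto (fun N : ℕ => (N : ℝ)) atTop atTop := tendsto_natCast_atTop_atTop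
  have h1 : Tendsto (fun N : ℕ => (N : ℝ) ^ ε) atTop atTop := (tendsto_rpow_atTop hε).comp hr
  obtain ⟨N₀, hN₀⟩ := eventually_atTop.1 ((h1.eventually_ge_atTop 8).and (eventually_ge_atTop 4))
  refine ⟨N₀, fun N hN => ?_⟩
  obtain ⟨g1, g2⟩ := hN₀ N hN
  set M := N / 2 with hM
  have hM1 : 1 ≤ M := by omega
  have hMN : M ≤ N := by omega
  have hMR : (1 : ℝ) ≤ M := by exact_mod_cast hM1
  have hM0 : (0 : ℝ) < M := by linarith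
  have hMNR : (M : ℝ) ≤ N := by exact_mod_cast hMN
  set L := ⌊(M : ℝ) ^ (1 / 6 : ℝ)⌋₊ with hL
  have hp : 1 ≤ (M : ℝ) ^ (1 / 6 : ℝ) := Real.one_le_rpow hMR (by norm_num)
  have hL0 : 0 < L := Nat.floor_pos.2 hp
  have hL1 : (L : ℝ) ≤ (M : ℝ) ^ (1 / 6 : ℝ) := Nat.floor_le (by positivity)
  have hL6 : L ^ 6 ≤ M := by
    have h2 : (L : ℝ) ^ 6 ≤ M := by
      calc (L : ℝ) ^ 6 ≤ ((M : ℝ) ^ (1 / 6 : ℝ)) ^ 6 := by gcongr
        _ = (M : ℝ) := by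
          rw [← Real.rpow_natCast, ← Real.rpow_mul hM0.le]
          norm_num
    exact_mod_cast h2
  have hL2 : (M : ℝ) ^ (1 / 6 : ℝ) / 2 ≤ L := by
    have h2 := Nat.lt_floor_add_one ((M : ℝ) ^ (1 / 6 : ℝ))
    rw [← hL] at h2
    have h3 : (1 : ℝ) ≤ L := by exact_mod_cast hL0
    linarith
  have hb := block M L hL0 hL6
  have hb' : (((Ioc M (2 * M)).filter (fun x => x ∈ E)).card : ℝ) ≤ 2 * (((M / L : ℕ) : ℝ) + 2) := by
    exact_mod_cast hb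
  refine hb'.trans ?_
  have h4 : ((M / L : ℕ) : ℝ) ≤ 2 * (M : ℝ) ^ (5 / 6 : ℝ) := by
    refine Nat.cast_div_le.trans ?_
    rw [div_le_iff₀ (by exact_mod_cast hL0)]
    have e : (M : ℝ) = (M : ℝ) ^ (5 / 6 : ℝ) * (M : ℝ) ^ (1 / 6 : ℝ) := by
      rw [← Real.rpow_add hM0]
      norm_num
    have h5 : 0 < (M : ℝ) ^ (5 / 6 : ℝ) := by positivity
    calc (M : ℝ) = 2 * (M : ℝ) ^ (5 / 6 : ℝ) * ((M : ℝ) ^ (1 / 6 : ℝ) / 2) := by
          rw [mul_div_assoc', mul_assoc, ← e]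
          ring
      _ ≤ 2 * (M : ℝ) ^ (5 / 6 : ℝ) * L := mul_le_mul_of_nonneg_left hL2 (by positivity)
  have h5 : (M : ℝ) ^ (5 / 6 : ℝ) ≤ (N : ℝ) ^ (5 / 6 : ℝ) := Real.rpow_le_rpow hM0.le hMNR (by norm_num)
  have hN0 : (0 : ℝ) < N := by linarith
  have h6 : (1 : ℝ) ≤ (N : ℝ) ^ (5 / 6 : ℝ) := Real.one_le_rpow (by linarith) (by norm_num)
  rw [Real.rpow_add hN0]
  nlinarith

open Classical in
/-- **The count.** -/
theorem count (ε : ℝ) (hε : 0 < ε) : ∃ C : ℝ, ∀ X : ℝ, 1 ≤ X →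
    {t : ℕ | t ∈ E ∧ (t : ℝ) ≤ X}.Finite ∧ ({t : ℕ | t ∈ E ∧ (t : ℝ) ≤ X}.ncard : ℝ) ≤ C * X ^ (5 / 6 + ε) := by
  obtain ⟨N₀, hN₀⟩ := block_real ε hε
  obtain ⟨K, hK, h⟩ := Pool.Agent.V11109.WIN.count_dyadic (s := 5 / 6 + ε) (by positivity) E
    (fun N => (Ioc (N / 2) (2 * (N / 2))).filter (fun x => x ∈ E)) N₀ hN₀ 0 (by
      intro i _ m hm h1 h2
      rw [mem_filter, mem_Ioc]
      have e : 2 ^ (i + 1) / 2 = 2 ^ i := by rw [pow_succ]; omega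
      rw [e]
      refine ⟨⟨h1, ?_⟩, hm⟩
      rw [pow_succ] at h2
      omega)
  exact ⟨K, h⟩

end Pool.Agent.V60.Hall
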