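import Pool.Agent.V60.LD.Dens
import Pool.Agent.H295R3.Hoheisel
import Pool.Agent.H243.BP.Input

/-! Integers after which the primes have the right order of frequency at all scales, in short intervals. -/

set_option autoImplicit false

open Finset Filter Topology

namespace Pool.Agent.V60.LD

open Pool.Agent.W123.RP Pool.Agent.H243.BP

open Classical in
/-- the integers `m` such that for all `log m ≤ H ≤ m ^ κ` there are at least `H / (lam log m)` primes in
`(m, m + H]` and at most `lam H / log m` in `[m, m + H + 1]` -/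
def SG (κ lam : ℝ) : Set ℕ := {m | ∀ H : ℝ, Real.log m ≤ H → H ≤ (m : ℝ) ^ κ →
  H / (lam * Real.log m) ≤ (((Ioc m (m + ⌊H⌋₊)).filter Nat.Prime).card : ℝ) ∧
  (((Ioc (m - 1) (m + ⌊H⌋₊ + 1)).filter Nat.Prime).card : ℝ) ≤ lam * H / Real.log m}

open Classical in
lemma good_of_bal {κ lam : ℝ} (hκ : 0 ≤ κ) (hlam : 1 ≤ lam) {X Y m p : ℕ} (hL : 2 ≤ Real.log X) (hm : X ≤ m)
    (hm2 : m ≤ 2 * X) (hY : ((2 * X : ℕ) : ℝ) ^ κ + 2 ≤ Y) (hmp : m < p) (hpm : p ≤ m + ⌊Real.log X⌋₊)
    (h : Bal Nat.Prime Nat.Prime lam (Real.log X) Y p) : m ∈ SG κ (5 * lam) := by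
  intro H hH1 hH2
  set L := Real.log X with hLdef
  have hX0 : (0 : ℝ) < X := by
    rcases Nat.eq_zero_or_pos X with h0 | h0
    · rw [hLdef, h0] at hL
      norm_num at hL
    · exact_mod_cast h0
  have hmR : (X : ℝ) ≤ m := by exact_mod_cast hm
  have hm2R : (m : ℝ) ≤ 2 * X := by exact_mod_cast hm2
  have hLm : L ≤ Real.log m := Real.log_le_log hX0 hmR
  have hmL : Real.log m ≤ 2 * L := by
    have h1 : Real.log m ≤ Real.log (2 * X) := Real.log_le_log (by linarith) hm2R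
    rw [Real.log_mul two_ne_zero hX0.ne'] at h1
    have := Real.log_two_lt_d9
    linarith
  have hH0 : 2 ≤ H := by linarith
  have hfl : (⌊H⌋₊ : ℝ) ≤ H := Nat.floor_le (by linarith)
  have hfl2 : H < ⌊H⌋₊ + 1 := Nat.lt_floor_add_one H
  have hTH : ⌊L⌋₊ ≤ ⌊H⌋₊ := Nat.floor_le_floor (by linarith)
  have hHY : ⌊H⌋₊ + 2 ≤ Y := by
    have h1 : (m : ℝ) ^ κ ≤ ((2 * X : ℕ) : ℝ) ^ κ :=
      Real.rpow_le_rpow (by positivity) (by push_cast; exact hm2R) hκ
    have h2 : ((⌊H⌋₊ + 2 : ℕ) : ℝ) ≤ Y := by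
      push_cast
      linarith
    exact_mod_cast h2
  have hL0 : 0 < L := by linarith
  have hlm0 : 0 < Real.log m := by linarith
  have hl0 : 0 < lam := by linarith
  constructor
  · obtain ⟨h1, -⟩ := h m (m + ⌊H⌋₊) hmp (by omega) (by omega)
    refine le_trans ?_ (h1.trans (le_of_eq ?_))
    · push_cast
      rw [add_sub_cancel_left, div_le_div_iff₀ (by positivity) (by positivity)]
      have h3 : H ≤ 5 * ⌊H⌋₊ := by linarith
      have h4 : H * (lam * L) ≤ (5 * ⌊H⌋₊) * (lam * Real.log m) := by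
        apply mul_le_mul h3 _ (by positivity) (by positivity)
        exact mul_le_mul_of_nonneg_left hLm hl0.le
      linarith
    · unfold co
      norm_cast
      congr!
  · obtain ⟨-, h2⟩ := h (m - 1) (m + ⌊H⌋₊ + 1) (by omega) (by omega) (by omega)
    refine le_trans (le_of_eq ?_) (h2.trans ?_)
    · unfold co
      norm_cast
      congr!
    · have hm1 : 1 ≤ m := by
        have : (0 : ℝ) < m := by linarith
        have h3 : 0 < m := by exact_mod_cast this
        omega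
      rw [Nat.cast_sub hm1]
      push_cast
      have h3 : (m : ℝ) + ⌊H⌋₊ + 1 - (m - 1) ≤ 2 * H := by linarith
      have h4 : 1 + ((m : ℝ) + ⌊H⌋₊ + 1 - (m - 1)) / L ≤ 5 * H / Real.log m := by
        rw [le_div_iff₀ hlm0, add_mul, one_mul]
        have h5 : ((m : ℝ) + ⌊H⌋₊ + 1 - (m - 1)) / L * Real.log m ≤ 2 * H / L * (2 * L) := by
          have h6 : 0 ≤ ((m : ℝ) + ⌊H⌋₊ + 1 - (m - 1)) := by
            have : (0 : ℝ) ≤ ⌊H⌋₊ := Nat.cast_nonneg _
            linarith
          gcongr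
        have h6 : 2 * H / L * (2 * L) = 4 * H := by field_simp; ring
        linarith
      calc lam * (1 + ((m : ℝ) + ⌊H⌋₊ + 1 - (m - 1)) / L) ≤ lam * (5 * H / Real.log m) :=
            mul_le_mul_of_nonneg_left h4 hl0.le
        _ = 5 * lam * H / Real.log m := by ring

open Classical in
/-- counting the integers shortly before the elements of a set -/
lemma count_before {lam : ℝ} {X Y T : ℕ} (D : Finset ℕ) (hD : ∀ p ∈ D, X + T < p ∧ p ≤ X + Y)
    (hup : ∀ m, ∀ p ∈ D, m < p → p ≤ m + T → ((D.filter (fun q => m < q ∧ q ≤ m + T)).card : ℝ) ≤ 2 * lam) :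
    (T : ℝ) * D.card ≤
      2 * lam * (((Ico X (X + Y)).filter (fun m => ∃ p ∈ D, m < p ∧ p ≤ m + T)).card : ℝ) := by
  set G := (Ico X (X + Y)).filter (fun m => ∃ p ∈ D, m < p ∧ p ≤ m + T) with hG
  have h1 : ∑ m ∈ G, ((D.filter (fun q => m < q ∧ q ≤ m + T)).card : ℝ) ≤ 2 * lam * G.card := by
    rw [mul_comm, ← nsmul_eq_mul, ← sum_const]
    refine Finset.sum_le_sum fun m hm => ?_
    rw [hG, mem_filter] at hm
    obtain ⟨-, p, hp, h1, h2⟩ := hm
    exact hup m p hp h1 h2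
  refine le_trans ?_ h1
  have h2 : ∑ m ∈ G, (D.filter (fun q => m < q ∧ q ≤ m + T)).card =
      ∑ p ∈ D, (G.filter (fun m => m < p ∧ p ≤ m + T)).card := by
    simp only [card_filter]
    exact Finset.sum_comm
  have h3 : ∀ p ∈ D, T ≤ (G.filter (fun m => m < p ∧ p ≤ m + T)).card := by
    intro p hp
    obtain ⟨h4, h5⟩ := hD p hp
    have h6 : (Ico (p - T) p).card = T := by rw [Nat.card_Ico]; omega
    refine h6.symm.le.trans (Finset.card_le_card ?_)
    intro m hm
    rw [mem_Ico] at hm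
    rw [mem_filter, hG, mem_filter, mem_Ico]
    have h7 : m < p ∧ p ≤ m + T := by omega
    exact ⟨⟨by omega, p, hp, h7⟩, h7⟩
  have h4 : T * D.card ≤ ∑ m ∈ G, (D.filter (fun q => m < q ∧ q ≤ m + T)).card := by
    rw [h2, mul_comm, ← smul_eq_mul, ← sum_const]
    exact Finset.sum_le_sum h3
  exact_mod_cast h4

open Classical in
/-- **The good integers have a positive proportion in short intervals.** -/
theorem good_dense {κ : ℝ} (hκ0 : 0 ≤ κ) (hκ1 : κ < 1) : ∃ lam θ c : ℝ, 1 ≤ lam ∧ 0 ≤ θ ∧ θ < 1 ∧ 0 < c ∧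
    ∃ X0 : ℕ, ∀ X Y : ℕ, X0 ≤ Y → (X : ℝ) ^ θ ≤ Y → 2 * Y ≤ X →
      c * Y ≤ (((Ico X (X + Y)).filter (fun m => m ∈ SG κ lam)).card : ℝ) := by
  obtain ⟨δ, η, hδ0, hδ1, hη, X₁, hX₁, hoh⟩ := Pool.Agent.H295R3.D.hoheisel
  set θ : ℝ := max (1 - δ) ((κ + 1) / 2) with hθ
  have hθ0 : 0 < θ := lt_of_lt_of_le (by linarith) (le_max_right _ _)
  have hθ1 : θ < 1 := max_lt (by linarith) (by linarith)
  have hκθ : κ < θ := lt_of_lt_of_le (by linarith) (le_max_right _ _)
  obtain ⟨C, hC, hbal⟩ := balanced_local θ hθ0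
  obtain ⟨lam, hlam1, hlam⟩ : ∃ lam : ℝ, 1 ≤ lam ∧ C / √lam ≤ η / 4 := by
    refine ⟨max 1 ((4 * C / η) ^ 2), le_max_left _ _, ?_⟩
    have h1 : 4 * C / η ≤ √(max 1 ((4 * C / η) ^ 2)) :=
      Real.le_sqrt_of_sq_le (le_max_right _ _)
    have h0 : 0 < 4 * C / η := by positivity
    calc C / √(max 1 ((4 * C / η) ^ 2)) ≤ C / (4 * C / η) := by gcongr
      _ = η / 4 := by field_simp
  have hXr : Tendsto (fun X : ℕ => (X : ℝ)) atTop atTop := tendsto_natCast_atTop_atTop
  have hlogX : Tendsto (fun X : ℕ => Real.log (X : ℝ)) atTop atTop := Real.tendsto_log_atTop.comp hXr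
  have hev1 : ∀ᶠ X : ℕ in atTop, (4 / η) * Real.log X ^ 2 ≤ (X : ℝ) ^ θ := by
    have h := ((isLittleO_log_rpow_rpow_atTop 2 hθ0).comp_tendsto hXr).bound
      (by positivity : (0 : ℝ) < 1 / (4 / η))
    filter_upwards [h, eventually_ge_atTop 1] with X hX hX1
    have hX1' : (1 : ℝ) ≤ X := by exact_mod_cast hX1
    have hl := Real.log_nonneg hX1'
    simp only [Function.comp_def] at hX
    rw [Real.norm_of_nonneg (by positivity), Real.norm_of_nonneg (by positivity)] at hX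
    have e : Real.log (X : ℝ) ^ (2 : ℝ) = Real.log (X : ℝ) ^ 2 := by
      rw [← Real.rpow_natCast]; norm_num
    rw [e] at hX
    calc (4 / η) * Real.log X ^ 2 ≤ (4 / η) * (1 / (4 / η) * (X : ℝ) ^ θ) := by gcongr
      _ = (X : ℝ) ^ θ := by field_simp
  have hev2 : ∀ᶠ X : ℕ in atTop, ((2 * X : ℕ) : ℝ) ^ κ + 2 ≤ (X : ℝ) ^ θ := by
    have h1 : Tendsto (fun X : ℕ => (X : ℝ) ^ (θ - κ)) atTop atTop :=
      (tendsto_rpow_atTop (by linarith)).comp hXr
    filter_upwards [h1.eventually_ge_atTop 4, eventually_ge_atTop 1] with X hX hX1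
    have hX1' : (1 : ℝ) ≤ X := by exact_mod_cast hX1
    have hX0 : (0 : ℝ) < X := by linarith
    have h2 : (X : ℝ) ^ θ = (X : ℝ) ^ (θ - κ) * (X : ℝ) ^ κ := by
      rw [← Real.rpow_add hX0]
      congr 1
      ring
    have h3 : (1 : ℝ) ≤ (X : ℝ) ^ κ := Real.one_le_rpow hX1' hκ0
    have h4 : ((2 * X : ℕ) : ℝ) ^ κ ≤ 2 * (X : ℝ) ^ κ := by
      push_cast
      rw [Real.mul_rpow (by norm_num) hX0.le]
      have : (2 : ℝ) ^ κ ≤ 2 ^ (1 : ℝ) := Real.rpow_le_rpow_of_exponent_le (by norm_num) hκ1.le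
      rw [Real.rpow_one] at this
      gcongr
    rw [h2]
    nlinarith
  obtain ⟨N0, hN0⟩ := eventually_atTop.1 (hbal.and (hev1.and (hev2.and ((hlogX.eventually_ge_atTop 2).and
    (eventually_ge_atTop (X₁ + 3))))))
  refine ⟨5 * lam, θ, η / (8 * lam), by linarith, hθ0.le, hθ1, by positivity, N0, fun X Y hY0 hXY hYX => ?_⟩
  obtain ⟨hb, he1, he2, hL2, hX3⟩ := hN0 X (by omega)
  set L := Real.log X with hL
  have hL0 : 0 < L := by linarith
  have hX0 : (0 : ℝ) < X := by exact_mod_cast (by omega : 0 < X)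
  have hX1 : (1 : ℝ) ≤ X := by exact_mod_cast (by omega : 1 ≤ X)
  set T := ⌊L⌋₊ with hT
  have hTL : (T : ℝ) ≤ L := Nat.floor_le hL0.le
  have hTL2 : L / 2 ≤ T := by
    have := Nat.lt_floor_add_one L
    rw [← hT] at this
    linarith
  -- the primes
  have h1 := hoh X Y (by omega) ((Real.rpow_le_rpow_of_exponent_le hX1 (le_max_left _ _)).trans hXY) (by omega)
  have h2 := hb Y hXY (by omega) Nat.Prime (fun n h => h) lam hlam1
  have h3 : C / √lam * (Y / L) ≤ η / 4 * (Y / L) := mul_le_mul_of_nonneg_right hlam (by positivity)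
  have hYL : L ≤ η / 4 * (Y / L) := by
    rw [mul_div_assoc', le_div_iff₀ hL0]
    have h4 := he1.trans hXY
    have h5 : η / 4 * (4 / η * L ^ 2) ≤ η / 4 * Y := mul_le_mul_of_nonneg_left h4 (by positivity)
    have h6 : η / 4 * (4 / η * L ^ 2) = L * L := by field_simp
    linarith
  set D := (Ioc (X + T) (X + Y)).filter (fun p => Nat.Prime p ∧ Bal Nat.Prime Nat.Prime lam L Y p) with hD
  have hcard : η / 2 * (Y / L) ≤ D.card := by
    have hsub : (Ioc X (X + Y)).filter Nat.Prime ⊆ D ∪ (Ioc X (X + T) ∪ (Ioc X (X + Y)).filter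
        (fun p => Nat.Prime p ∧ ¬ Bal Nat.Prime Nat.Prime lam L Y p)) := by
      intro p hp
      rw [mem_filter, mem_Ioc] at hp
      rw [mem_union, mem_union, hD, mem_filter, mem_filter, mem_Ioc, mem_Ioc, mem_Ioc]
      by_cases hb1 : Bal Nat.Prime Nat.Prime lam L Y p
      · by_cases hb2 : p ≤ X + T
        · exact Or.inr (Or.inl ⟨hp.1.1, hb2⟩)
        · exact Or.inl ⟨⟨by omega, hp.1.2⟩, hp.2, hb1⟩
      · exact Or.inr (Or.inr ⟨hp.1, hp.2, hb1⟩)
    have h4 := (card_le_card hsub).trans ((card_union_le _ _).trans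
      (Nat.add_le_add_left (card_union_le _ _) _))
    rw [Nat.card_Ioc] at h4
    have h5 : (((Ioc X (X + Y)).filter Nat.Prime).card : ℝ) ≤ D.card + (T + (((Ioc X (X + Y)).filter
        (fun p => Nat.Prime p ∧ ¬ Bal Nat.Prime Nat.Prime lam L Y p)).card : ℝ)) := by
      have e : X + T - X = T := by omega
      rw [e] at h4
      exact_mod_cast h4
    have h6 : η * Y / L ≤ (((Ioc X (X + Y)).filter Nat.Prime).card : ℝ) := by
      refine h1.trans (le_of_eq ?_)
      congr!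
    have h7 : η * Y / L = η * (Y / L) := by ring
    have h8 : ((((Ioc X (X + Y)).filter
        (fun p => Nat.Prime p ∧ ¬ Bal Nat.Prime Nat.Prime lam L Y p)).card : ℕ) : ℝ) ≤ C / √lam * (Y / L) := by
      refine le_trans (le_of_eq ?_) h2
      congr!
    linarith
  have hcb := count_before (lam := lam) (X := X) (Y := Y) (T := T) D
    (fun p hp => by
      rw [hD, mem_filter, mem_Ioc] at hp
      exact hp.1)
    (fun m p hp h4 h5 => by
      rw [hD, mem_filter] at hp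
      have hTY : m + T ≤ m + Y := by
        have h20 := mem_Ioc.1 hp.1
        omega
      obtain ⟨-, h6⟩ := hp.2.2 m (m + T) h4 h5 hTY
      unfold co at h6
      refine le_trans (Nat.cast_le.2 (Finset.card_le_card ?_)) (h6.trans ?_)
      · intro q hq
        rw [mem_filter, hD, mem_filter] at hq
        exact (@mem_filter _ _ (_) _ _).2 ⟨mem_Ioc.2 hq.2, hq.1.2.1⟩
      · push_cast
        rw [add_sub_cancel_left]
        have h8 : (T : ℝ) / L ≤ 1 := by
          rw [div_le_one hL0]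
          exact hTL
        nlinarith)
  have hsub : (Ico X (X + Y)).filter (fun m => ∃ p ∈ D, m < p ∧ p ≤ m + T) ⊆
      (Ico X (X + Y)).filter (fun m => m ∈ SG κ (5 * lam)) := by
    intro m hm
    rw [mem_filter, mem_Ico] at hm
    obtain ⟨hm1, p, hp, h4, h5⟩ := hm
    rw [hD, mem_filter] at hp
    rw [mem_filter, mem_Ico]
    exact ⟨hm1, good_of_bal hκ0 hlam1 hL2 hm1.1 (by omega) (he2.trans hXY) h4 h5 hp.2.2⟩
  have h4 : (((Ico X (X + Y)).filter (fun m => ∃ p ∈ D, m < p ∧ p ≤ m + T)).card : ℝ) ≤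
      (((Ico X (X + Y)).filter (fun m => m ∈ SG κ (5 * lam))).card : ℝ) := by
    exact_mod_cast card_le_card hsub
  have h5 : L / 2 * (η / 2 * (Y / L)) ≤ T * D.card := by
    apply mul_le_mul hTL2 hcard (by positivity) (by positivity)
  have h6 : L / 2 * (η / 2 * (Y / L)) = η / 4 * Y := by field_simp; ring
  have h7 : 2 * lam * (((Ico X (X + Y)).filter (fun m => ∃ p ∈ D, m < p ∧ p ≤ m + T)).card : ℝ) ≤
      2 * lam * (((Ico X (X + Y)).filter (fun m => m ∈ SG κ (5 * lam))).card : ℝ) :=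
    mul_le_mul_of_nonneg_left h4 (by linarith)
  have h8 : η / 4 * Y ≤ 2 * lam * (((Ico X (X + Y)).filter (fun m => m ∈ SG κ (5 * lam))).card : ℝ) := by
    linarith
  have h9 : η / (8 * lam) * Y = η / 4 * Y / (2 * lam) := by field_simp; ring
  rw [h9, div_le_iff₀ (by linarith)]
  linarith

/-- the integers `m` without primes in `[m, m + δ log m + 1]` -/
def SE (δ : ℝ) : Set ℕ := {m | ∀ p : ℕ, p.Prime → m ≤ p → ¬ (p : ℝ) ≤ m + δ * Real.log m + 1}

open Classical in
/-- **Windows of small logarithmic length without primes.** -/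
theorem empty_dense {ε : ℝ} (hε : 0 < ε) : ∃ δ : ℝ, 0 < δ ∧
    ∃ X0 : ℕ, ∀ X Y : ℕ, X0 ≤ Y → (X : ℝ) ^ (1 / 2 : ℝ) ≤ Y → 2 * Y ≤ X →
      (1 - ε) * Y ≤ (((Ico X (X + Y)).filter (fun m => m ∈ SE δ)).card : ℝ) := by
  obtain ⟨C, hC, hbt⟩ := bt
  set δ : ℝ := ε / (12 * C) with hδ
  have hδ0 : 0 < δ := by positivity
  have hXr : Tendsto (fun X : ℕ => (X : ℝ)) atTop atTop := tendsto_natCast_atTop_atTop
  have hlogX : Tendsto (fun X : ℕ => Real.log (X : ℝ)) atTop atTop := Real.tendsto_log_atTop.comp hXr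
  have hev : ∀ᶠ X : ℕ in atTop, δ * Real.log (2 * X) + 2 ≤ 3 / 2 * δ * Real.log X ∧
      δ * Real.log (2 * X) + 3 ≤ (X : ℝ) ^ (1 / 2 : ℝ) := by
    have h1 := ((isLittleO_log_rpow_atTop (by norm_num : (0 : ℝ) < 1 / 2)).comp_tendsto hXr).bound
      (by positivity : (0 : ℝ) < 1 / (2 * (δ + 1)))
    have h2 : Tendsto (fun X : ℕ => (X : ℝ) ^ (1 / 2 : ℝ)) atTop atTop :=
      (tendsto_rpow_atTop (by norm_num)).comp hXr
    filter_upwards [h1, hlogX.eventually_ge_atTop (2 * (δ + 2) / δ), h2.eventually_ge_atTop (2 * (δ + 3)),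
      eventually_ge_atTop 1] with X hX hX2 hX3 hX1
    have hX1' : (1 : ℝ) ≤ X := by exact_mod_cast hX1
    have hX0 : (0 : ℝ) < X := by linarith
    have hl := Real.log_nonneg hX1'
    simp only [Function.comp_def] at hX
    rw [Real.norm_of_nonneg hl, Real.norm_of_nonneg (by positivity)] at hX
    rw [Real.log_mul two_ne_zero hX0.ne']
    have hl2 : Real.log 2 ≤ 1 := by linarith [Real.log_two_lt_d9]
    have h3 : δ * Real.log 2 ≤ δ := by nlinarith
    rw [div_le_iff₀ hδ0] at hX2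
    constructor
    · nlinarith
    · have h4 : (δ + 1) * Real.log X ≤ (X : ℝ) ^ (1 / 2 : ℝ) / 2 := by
        calc (δ + 1) * Real.log X ≤ (δ + 1) * (1 / (2 * (δ + 1)) * (X : ℝ) ^ (1 / 2 : ℝ)) := by gcongr
          _ = (X : ℝ) ^ (1 / 2 : ℝ) / 2 := by field_simp
      nlinarith
  obtain ⟨N0, hN0⟩ := eventually_atTop.1 hev
  refine ⟨δ, hδ0, N0 + 4, fun X Y hY0 hXY hYX => ?_⟩
  obtain ⟨h1, h2⟩ := hN0 X (by omega)
  have hX0 : (0 : ℝ) < X := by exact_mod_cast (by omega : 0 < X)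
  have hX1 : (1 : ℝ) < X := by exact_mod_cast (by omega : 1 < X)
  have hL0 : 0 < Real.log X := Real.log_pos hX1
  set T : ℕ := ⌊δ * Real.log (2 * X) + 1⌋₊ with hT
  have hl2X : 0 ≤ Real.log (2 * X) := Real.log_nonneg (by linarith)
  have hTR : (T : ℝ) ≤ δ * Real.log (2 * X) + 1 := Nat.floor_le (by positivity)
  have hTY : T + 2 ≤ Y := by
    have : ((T + 2 : ℕ) : ℝ) ≤ Y := by push_cast; linarith
    exact_mod_cast this
  -- the bad integers
  have hbad : ((Ico X (X + Y)).filter (fun m => m ∉ SE δ)) ⊆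
      ((Ioc (X - 1) (X - 1 + 2 * Y)).filter Nat.Prime).biUnion (fun p => Icc (p - T) p) := by
    intro m hm
    rw [mem_filter, mem_Ico] at hm
    obtain ⟨⟨h3, h4⟩, h5⟩ := hm
    simp only [SE, Set.mem_ofPred_eq, not_forall, not_not] at h5
    obtain ⟨p, hp, hmp, hpm⟩ := h5
    have hpT : p ≤ m + T := by
      have h6 : Real.log m ≤ Real.log (2 * X) := by
        apply Real.log_le_log
        · exact_mod_cast (by omega : 0 < m)
        · exact_mod_cast (by omega : m ≤ 2 * X)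
      have h7 : ((p - m : ℕ) : ℝ) ≤ δ * Real.log (2 * X) + 1 := by
        rw [Nat.cast_sub hmp]
        have := mul_le_mul_of_nonneg_left h6 hδ0.le
        linarith
      have h8 : p - m ≤ T := Nat.le_floor h7
      omega
    rw [mem_biUnion]
    refine ⟨p, ?_, ?_⟩
    · rw [mem_filter, mem_Ioc]
      exact ⟨⟨by omega, by omega⟩, hp⟩
    · rw [mem_Icc]
      omega
  have h3 := (card_le_card hbad).trans card_biUnion_le
  have h4 : ∀ p ∈ (Ioc (X - 1) (X - 1 + 2 * Y)).filter Nat.Prime, (Icc (p - T) p).card ≤ T + 1 := by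
    intro p _
    rw [Nat.card_Icc]
    omega
  have h5 := h3.trans (Finset.sum_le_sum h4)
  rw [sum_const, smul_eq_mul] at h5
  have h6 := hbt (X - 1) (2 * Y) (by omega)
  have hY1 : (1 : ℝ) < Y := by exact_mod_cast (by omega : 1 < Y)
  have hlY : Real.log X / 2 ≤ Real.log ((2 * Y : ℕ) : ℝ) := by
    have h7 : Real.log ((X : ℝ) ^ (1 / 2 : ℝ)) ≤ Real.log Y := Real.log_le_log (by positivity) hXY
    rw [Real.log_rpow hX0] at h7
    have h8 : Real.log Y ≤ Real.log ((2 * Y : ℕ) : ℝ) := by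
      apply Real.log_le_log (by linarith)
      push_cast
      linarith
    linarith
  have h7 : (((Ioc (X - 1) (X - 1 + 2 * Y)).filter Nat.Prime).card : ℝ) ≤ 4 * C * Y / Real.log X := by
    refine h6.trans ?_
    calc C * ((2 * Y : ℕ) : ℝ) / Real.log ((2 * Y : ℕ) : ℝ) ≤ C * ((2 * Y : ℕ) : ℝ) / (Real.log X / 2) := by
          gcongr
      _ = 4 * C * Y / Real.log X := by
          push_cast
          field_simp
          ring
  have h8 : (((Ico X (X + Y)).filter (fun m => m ∉ SE δ)).card : ℝ) ≤ ε * Y := by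
    calc (((Ico X (X + Y)).filter (fun m => m ∉ SE δ)).card : ℝ)
        ≤ (((Ioc (X - 1) (X - 1 + 2 * Y)).filter Nat.Prime).card : ℝ) * (T + 1) := by exact_mod_cast h5
      _ ≤ (4 * C * Y / Real.log X) * (3 / 2 * δ * Real.log X) := by
          apply mul_le_mul h7 (by linarith) (by positivity) (by positivity)
      _ = 6 * C * δ * Y := by field_simp; ring
      _ ≤ ε * Y := by
          rw [hδ]
          have : 6 * C * (ε / (12 * C)) = ε / 2 := by field_simp; ring
          rw [this]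
          nlinarith
  have h9 : ((Ico X (X + Y)).filter (fun m => m ∈ SE δ)).card +
      ((Ico X (X + Y)).filter (fun m => m ∉ SE δ)).card = Y := by
    rw [Finset.card_filter_add_card_filter_not, Nat.card_Ico]
    omega
  have h10 : (((Ico X (X + Y)).filter (fun m => m ∈ SE δ)).card : ℝ) +
      (((Ico X (X + Y)).filter (fun m => m ∉ SE δ)).card : ℝ) = Y := by exact_mod_cast h9
  linarith

end Pool.Agent.V60.LD
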